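import Pool.Agent.H318R3.St.Main

set_option autoImplicit false

open MeasureTheory Set Filter Topology Metric
open scoped RealInnerProductSpace ENNReal

namespace Pool.Agent.H318R3.GM

open Pool.Agent.H318R3.St

section basic

variable {E : Type*} [NormedAddCommGroup E] [InnerProductSpace ℝ E]

lemma sym_refl {u : E} (hu : ‖u‖ = 1) {K : Set E} {x : E} (hx : x ∈ sym u K) :
    refl u x ∈ sym u K := by
  obtain ⟨z, t, rfl, hz, hs, ht⟩ := hx
  refine ⟨z, -t, ?_, hz, hs, by rw [abs_neg]; exact ht⟩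
  rw [refl_line hu hz, neg_smul, sub_eq_add_neg]

lemma sym_neg {u : E} (hu : ‖u‖ = 1) {K : Set E} (hK : IsCompact K) (hc : Convex ℝ K)
    (hneg : ∀ x ∈ K, -x ∈ K) : ∀ x ∈ sym u K, -x ∈ sym u K := by
  rw [sym_eq_image hu hK hc]
  rintro _ ⟨⟨p, q⟩, ⟨hp, hq, hpq⟩, rfl⟩
  simp only at hp hq hpq
  refine ⟨(-p, -q), ⟨hneg p hp, hneg q hq, ?_⟩, ?_⟩
  · simp only
    have e : -p - -q = -(p - q) := by abel
    rw [e, inner_neg_left, neg_smul, ← hpq]
  · simp only [map_neg]
    rw [← smul_neg]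
    congr 1
    abel

end basic

variable {E : Type*} [NormedAddCommGroup E] [InnerProductSpace ℝ E] [FiniteDimensional ℝ E]
  [MeasurableSpace E] [BorelSpace E]

lemma JJ_lt_top (R : ℝ) {K : Set E} (hK : IsCompact K) : JJ R K ≠ ⊤ := by
  obtain ⟨r, hr⟩ := hK.isBounded.subset_closedBall 0
  have h1 : JJ R K ≤ ∫⁻ x in K, ENNReal.ofReal (r ^ 2 + 4 * R ^ 2) := by
    apply setLIntegral_mono measurable_const
    intro x hx
    apply ENNReal.ofReal_le_ofReal
    have h1 := mem_closedBall_zero_iff.1 (hr hx)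
    have h2 := norm_nonneg x
    nlinarith
  rw [setLIntegral_const] at h1
  exact (h1.trans_lt (ENNReal.mul_lt_top ENNReal.ofReal_lt_top hK.measure_lt_top)).ne

/-- Rigidity: if the symmetral has the same second moment it is the body itself. -/
theorem rigid {u : E} (hu : ‖u‖ = 1) {K : Set E} (hK : IsCompact K) (hc : Convex ℝ K)
    (hne : K.Nonempty) (hv : volume K ≠ 0) {R : ℝ} (hR : K ⊆ closedBall 0 R)
    (hJ : JJ R K ≤ JJ R (sym u K)) : sym u K = K := by
  have hSc := sym_isCompact hu hK hc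
  have hSv := sym_convex hu hK hc
  have hSn := sym_nonempty hu hK hc hne
  have hSR := sym_subset_ball hu hK hc hR
  have hvol := sym_volume hu hK hc
  set S := sym u K with hS
  have hVtop : volume K ≠ ⊤ := hK.measure_lt_top.ne
  have hcm : Measurable fun x : E => ENNReal.ofReal (cL S R x) :=
    ENNReal.measurable_ofReal.comp (cL_cont S R).measurable
  have h1 := sym_ineq hu hK hc (fun x => ENNReal.ofReal (cL S R x)) hcm (by
    intro y m
    apply ofReal_mid
    exact cL_mid hSc hSn R _ _)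
  have h2 : ∫⁻ x in S, ENNReal.ofReal (cL S R x) = JJ R S := by
    apply setLIntegral_congr_fun hSc.measurableSet
    intro x hx
    show ENNReal.ofReal (cL S R x) = ENNReal.ofReal (‖x‖ ^ 2 + 4 * R ^ 2)
    unfold cL
    rw [infDist_zero_of_mem hx]
    norm_num
  have hcle : ∀ x : E, cL S R x ≤ ‖x‖ ^ 2 + 4 * R ^ 2 := by
    intro x
    unfold cL
    nlinarith [sq_nonneg (infDist x S)]
  have h3 : ∫⁻ x in K, ENNReal.ofReal (cL S R (refl u x)) ≤ JJ R K := by
    apply lintegral_mono
    intro x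
    apply ENNReal.ofReal_le_ofReal
    have := hcle (refl u x)
    rwa [(refl u).norm_map] at this
  have hJtop := JJ_lt_top R hK
  have h4 : JJ R K ≤ ∫⁻ x in K, ENNReal.ofReal (cL S R x) := by
    have h5 : 2 * JJ R K ≤ (∫⁻ x in K, ENNReal.ofReal (cL S R x)) + JJ R K := by
      calc 2 * JJ R K ≤ 2 * JJ R S := by gcongr
        _ = 2 * ∫⁻ x in S, ENNReal.ofReal (cL S R x) := by rw [h2]
        _ ≤ _ := h1
        _ ≤ _ := by gcongr
    rw [two_mul] at h5
    exact (ENNReal.add_le_add_iff_right hJtop).1 h5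
  have hdm : Measurable fun x : E => ENNReal.ofReal (infDist x S ^ 2) := by
    have := (continuous_infDist_pt S).measurable
    fun_prop
  have h6 : (∫⁻ x in K, ENNReal.ofReal (cL S R x)) +
      ∫⁻ x in K, ENNReal.ofReal (infDist x S ^ 2) = JJ R K := by
    rw [← lintegral_add_left hcm]
    apply setLIntegral_congr_fun hK.measurableSet
    intro x hx
    show ENNReal.ofReal (cL S R x) + ENNReal.ofReal (infDist x S ^ 2) =
      ENNReal.ofReal (‖x‖ ^ 2 + 4 * R ^ 2)
    rw [← ENNReal.ofReal_add (cL_nonneg hSn hSR (hR hx)) (sq_nonneg _)]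
    congr 1
    unfold cL
    ring
  have hzero : ∫⁻ x in K, ENNReal.ofReal (infDist x S ^ 2) = 0 := by
    have h7 : (∫⁻ x in K, ENNReal.ofReal (infDist x S ^ 2)) + JJ R K ≤ 0 + JJ R K := by
      rw [zero_add]
      calc (∫⁻ x in K, ENNReal.ofReal (infDist x S ^ 2)) + JJ R K
          ≤ (∫⁻ x in K, ENNReal.ofReal (infDist x S ^ 2)) +
            ∫⁻ x in K, ENNReal.ofReal (cL S R x) := by gcongr
        _ = JJ R K := by rw [add_comm, h6]
    exact le_antisymm ((ENNReal.add_le_add_iff_right hJtop).1 h7) zero_le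
  have hnull : volume (K \ S) = 0 := by
    rw [lintegral_eq_zero_iff hdm] at hzero
    have h1 := (ae_restrict_iff' hK.measurableSet).1 hzero
    rw [ae_iff] at h1
    refine measure_mono_null ?_ h1
    rintro x ⟨hx, hxL⟩
    simp only [mem_ofPred_eq, Classical.not_imp]
    refine ⟨hx, ?_⟩
    have hpos : 0 < infDist x S := (hSc.isClosed.notMem_iff_infDist_pos hSn).1 hxL
    simp only [Pi.zero_apply, ENNReal.ofReal_eq_zero, not_le]
    positivity
  have hsub : K ⊆ S := subset_of_ae hc hK.isClosed hSc.isClosed hv hnull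
  have hsub2 : S ⊆ K := by
    apply subset_of_ae hSv hSc.isClosed hK.isClosed (by rw [hvol]; exact hv)
    rw [measure_sdiff hsub hK.measurableSet.nullMeasurableSet hVtop, hvol, tsub_self]
  exact hsub2.antisymm hsub

/-- A nonempty compact convex set invariant under all reflections is a ball. -/
theorem ball_of_refl {L : Set E} (hL : IsCompact L) (hc : Convex ℝ L) (hne : L.Nonempty)
    (h : ∀ u : E, ‖u‖ = 1 → ∀ x ∈ L, refl u x ∈ L) : ∃ ρ : ℝ, 0 ≤ ρ ∧ L = closedBall 0 ρ := by
  obtain ⟨z, hz, hmax⟩ := hL.exists_isMaxOn hne continuous_norm.continuousOn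
  have hsph : ∀ y : E, ‖y‖ = ‖z‖ → y ∈ L := by
    intro y hy
    by_cases hyz : z - y = 0
    · rw [sub_eq_zero] at hyz; rw [← hyz]; exact hz
    · have hpos : 0 < ‖z - y‖ := norm_pos_iff.2 hyz
      set u : E := (‖z - y‖)⁻¹ • (z - y) with hu
      have hun : ‖u‖ = 1 := by
        rw [hu, norm_smul, norm_inv, norm_norm, inv_mul_cancel₀ hpos.ne']
      have h1 := h u hun z hz
      have h2 : refl u z = y := by
        unfold St.refl
        have h3 : (ℝ ∙ u) = (ℝ ∙ (z - y)) := by
          rw [hu]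
          exact Submodule.span_singleton_smul_eq (IsUnit.mk0 _ (inv_ne_zero hpos.ne')) _
        have h4 := Submodule.reflection_sub (v := z) (w := y) hy.symm
        simp only [h3]
        exact h4
      rw [← h2]; exact h1
  refine ⟨‖z‖, norm_nonneg z, ?_⟩
  apply Subset.antisymm
  · intro y hy
    rw [mem_closedBall_zero_iff]
    exact hmax hy
  · intro y hy
    rw [mem_closedBall_zero_iff] at hy
    by_cases hy0 : y = 0
    · have h1 := hsph z rfl
      have h2 := hsph (-z) (norm_neg z)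
      have h3 := hc h1 h2 (show (0:ℝ) ≤ 1 / 2 by norm_num) (show (0:ℝ) ≤ 1 / 2 by norm_num)
        (by norm_num)
      rw [hy0]
      convert h3 using 1
      rw [smul_neg, add_neg_cancel]
    · have hyn : 0 < ‖y‖ := norm_pos_iff.2 hy0
      have hz0 : 0 < ‖z‖ := hyn.trans_le hy
      set w : E := (‖z‖ / ‖y‖) • y with hw
      have hwn : ‖w‖ = ‖z‖ := by
        rw [hw, norm_smul, Real.norm_of_nonneg (by positivity)]
        field_simp
      have h1 := hsph w hwn
      have h2 := hsph (-w) (by rw [norm_neg, hwn])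
      set t : ℝ := ‖y‖ / ‖z‖ with ht
      have ht1 : t ≤ 1 := (div_le_one hz0).2 hy
      have ht0 : 0 ≤ t := by positivity
      have h3 := hc h1 h2 (show (0:ℝ) ≤ (1 + t) / 2 by linarith)
        (show (0:ℝ) ≤ (1 - t) / 2 by linarith) (by ring)
      have e : ((1 + t) / 2) • w + ((1 - t) / 2) • (-w) = y := by
        have : ((1 + t) / 2) • w + ((1 - t) / 2) • (-w) = t • w := by module
        rw [this, hw, smul_smul, ht]
        have : ‖y‖ / ‖z‖ * (‖z‖ / ‖y‖) = 1 := by field_simp
        rw [this, one_smul]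
      rwa [e] at h3

/-- Symmetrization to a ball of properties stable under symmetrization and limits. -/
theorem exists_ball (P : Set E → Prop) {K : Set E} (hK : IsCompact K) (hc : Convex ℝ K)
    (hint : (interior K).Nonempty) (hPK : P K)
    (hsym : ∀ (L : Set E) (u : E), ‖u‖ = 1 → IsCompact L → Convex ℝ L → P L → P (sym u L))
    (hlim : ∀ (A : ℕ → Set E) (L : Set E), (∀ k, IsCompact (A k) ∧ Convex ℝ (A k) ∧
      (A k).Nonempty ∧ P (A k)) → IsCompact L → Convex ℝ L → L.Nonempty →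
      Tendsto (fun k => hausdorffDist (A k) L) atTop (𝓝 0) → P L) :
    ∃ ρ : ℝ, 0 ≤ ρ ∧ P (closedBall 0 ρ) ∧ volume (closedBall (0 : E) ρ) = volume K := by
  obtain ⟨R, hR⟩ := hK.isBounded.subset_closedBall 0
  have hV0 : volume K ≠ 0 :=
    ((isOpen_interior.measure_pos volume hint).trans_le (measure_mono interior_subset)).ne'
  set C : Set (Set E) := {L | IsCompact L ∧ Convex ℝ L ∧ L.Nonempty ∧ L ⊆ closedBall 0 R ∧
    volume L = volume K ∧ P L} with hC
  have hKC : K ∈ C := ⟨hK, hc, hint.mono interior_subset, hR, rfl, hPK⟩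
  have hCne : (JJ R '' C).Nonempty := ⟨_, mem_image_of_mem _ hKC⟩
  obtain ⟨a, -, ha, haC⟩ := exists_seq_tendsto_sInf hCne (OrderBot.bddBelow _)
  choose A hAC hAa using haC
  obtain ⟨L, hL, hLn, hLc, hLR, φ, hφ, hlimL⟩ := blaschke A R (fun k => (hAC k).1)
    (fun k => (hAC k).2.2.1) (fun k => (hAC k).2.1) (fun k => (hAC k).2.2.2.1)
  have hvolL : volume L = volume K := by
    have h1 := tendsto_lint (fun k => (hAC (φ k)).2.2.1) hLn (fun k => (hAC (φ k)).1) hL
      (fun k => (hAC (φ k)).2.1) hLc hlimL (fun k => (hAC (φ k)).2.2.2.1) (fun _ => 1)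
      measurable_const (C := 1) ENNReal.one_ne_top (fun _ _ => le_rfl)
    simp only [setLIntegral_one] at h1
    have h2 : (fun k => volume (A (φ k))) = fun _ => volume K := by
      ext k; exact (hAC (φ k)).2.2.2.2.1
    rw [h2] at h1
    exact (tendsto_nhds_unique h1 tendsto_const_nhds)
  have hJlim : Tendsto (fun k => JJ R (A (φ k))) atTop (𝓝 (JJ R L)) :=
    tendsto_lint (fun k => (hAC (φ k)).2.2.1) hLn (fun k => (hAC (φ k)).1) hL
      (fun k => (hAC (φ k)).2.1) hLc hlimL (fun k => (hAC (φ k)).2.2.2.1) _ (by fun_prop)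
      (C := ENNReal.ofReal (R ^ 2 + 4 * R ^ 2)) ENNReal.ofReal_ne_top (by
        intro x hx
        apply ENNReal.ofReal_le_ofReal
        have h1 := mem_closedBall_zero_iff.1 hx
        have h2 := norm_nonneg x
        nlinarith)
  have hPL : P L := hlim (fun k => A (φ k)) L (fun k => ⟨(hAC (φ k)).1, (hAC (φ k)).2.1,
    (hAC (φ k)).2.2.1, (hAC (φ k)).2.2.2.2.2⟩) hL hLc hLn hlimL
  have hLC : L ∈ C := ⟨hL, hLc, hLn, hLR, hvolL, hPL⟩
  have hJmin : JJ R L = sInf (JJ R '' C) := by
    have h1 : Tendsto (fun k => JJ R (A (φ k))) atTop (𝓝 (sInf (JJ R '' C))) := by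
      have h2 := ha.comp hφ.tendsto_atTop
      refine h2.congr fun k => ?_
      exact (hAa (φ k)).symm
    exact tendsto_nhds_unique hJlim h1
  have hrefl : ∀ u : E, ‖u‖ = 1 → ∀ x ∈ L, refl u x ∈ L := by
    intro u hu x hx
    have hS : sym u L ∈ C := ⟨sym_isCompact hu hL hLc, sym_convex hu hL hLc,
      sym_nonempty hu hL hLc hLn, sym_subset_ball hu hL hLc hLR,
      (sym_volume hu hL hLc).trans hvolL, hsym L u hu hL hLc hPL⟩
    have h1 : JJ R L ≤ JJ R (sym u L) := by
      rw [hJmin]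
      exact sInf_le (mem_image_of_mem _ hS)
    have h2 := rigid hu hL hLc hLn (by rw [hvolL]; exact hV0) hLR h1
    rw [← h2] at hx ⊢
    exact sym_refl hu hx
  obtain ⟨ρ, hρ, hball⟩ := ball_of_refl hL hLc hLn hrefl
  refine ⟨ρ, hρ, ?_, ?_⟩
  · rw [← hball]; exact hPL
  · rw [← hball]; exact hvolL

end Pool.Agent.H318R3.GM
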