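import Pool.Agent.H318R3.GM.Ext

set_option autoImplicit false

open MeasureTheory Set Filter Topology Metric
open scoped RealInnerProductSpace ENNReal

namespace Pool.Agent.H318R3.GM

open Pool.Agent.H318R3.St

variable {d : ℕ}

lemma IsSymmBody.zero_mem_interior {M : Set (Eu d)} (hb : IsSymmBody M) :
    (0 : Eu d) ∈ interior M := by
  obtain ⟨y, hy⟩ := hb.interior_nonempty
  have h1 : -y ∈ M := hb.neg_mem y (interior_subset hy)
  have := hb.convex.combo_interior_self_mem_interior hy h1 (show (0:ℝ) < 1 / 2 by norm_num)
    (show (0:ℝ) ≤ 1 / 2 by norm_num) (by norm_num)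
  simpa using this

lemma IsSymmBody.exists_small {M : Set (Eu d)} (hb : IsSymmBody M) (u : Eu d) :
    ∃ κ : ℝ, 0 < κ ∧ κ • u ∈ M := by
  have h0 := hb.zero_mem_interior
  have hcont : Continuous fun κ : ℝ => κ • u := by fun_prop
  have h1 : (fun κ : ℝ => κ • u) ⁻¹' interior M ∈ 𝓝 (0 : ℝ) := by
    apply hcont.continuousAt.preimage_mem_nhds
    simp only [zero_smul]
    exact isOpen_interior.mem_nhds h0
  obtain ⟨ε, hε, hsub⟩ := Metric.mem_nhds_iff.1 h1
  refine ⟨ε / 2, by positivity, interior_subset (hsub (?_ : ε / 2 ∈ ball (0:ℝ) ε))⟩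
  rw [mem_ball, Real.dist_eq, sub_zero, abs_of_pos (by positivity)]
  linarith

/-- top of the chord -/
noncomputable def top (u x : Eu d) (M : Set (Eu d)) (s : ℝ) : ℝ := sSup (chord u (s • x) M)
/-- bottom of the chord -/
noncomputable def bot (u x : Eu d) (M : Set (Eu d)) (s : ℝ) : ℝ := sInf (chord u (s • x) M)

lemma chord_eq {u : Eu d} (hu : ‖u‖ = 1) (x : Eu d) {M : Set (Eu d)} (hM : IsCompact M)
    (hc : Convex ℝ M) {s : ℝ} (hs : (chord u (s • x) M).Nonempty) :
    bot u x M s ≤ top u x M s ∧ chord u (s • x) M = Icc (bot u x M s) (top u x M s) := by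
  rcases chord_cases hu (s • x) hM hc with h | ⟨a, b, hab, h⟩
  · rw [h] at hs; exact absurd hs not_nonempty_empty
  · have h1 : top u x M s = b := by unfold top; rw [h, csSup_Icc hab]
    have h2 : bot u x M s = a := by unfold bot; rw [h, csInf_Icc hab]
    rw [h1, h2]
    exact ⟨hab, h⟩

/-- The core lemma. -/
theorem core {C : ℝ} {M : Set (Eu d)} (h : Ext C M) {u x : Eu d} (hu : ‖u‖ = 1)
    (hx : ⟪x, u⟫ = 0) {r r' : ℝ} (hr : 0 < r) (hrr : r < r') (hr' : (chord u (r' • x) M).Nonempty) :
    (chord u (r • x) M).Nonempty ∧
    ∃ c f g : ℝ, 0 < c ∧ c * top u x M r + r * f = 1 ∧ -c * bot u x M r + r * g = 1 ∧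
      ∀ s, (chord u (s • x) M).Nonempty →
        c * top u x M s + s * f ≤ 1 ∧ -c * bot u x M s + s * g ≤ 1 := by
  have hb := h.body
  have hN := h.symm hu
  obtain ⟨κ, hκ, hκM⟩ := hb.exists_small u
  obtain ⟨t', ht'⟩ := hr'
  have hr'0 : 0 < r' := hr.trans hrr
  set θ : ℝ := r / r' with hθ
  have hθ0 : 0 < θ := by positivity
  have hθ1 : θ < 1 := (div_lt_one hr'0).2 hrr
  have hup : (1 - θ) * κ + θ * t' ∈ chord u (r • x) M := by
    have h1 := hb.convex hκM ht' (show (0:ℝ) ≤ 1 - θ by linarith) hθ0.le (by ring)
    unfold chord
    simp only [mem_ofPred_eq]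
    convert h1 using 1
    rw [smul_add, smul_smul, smul_smul, smul_smul, hθ, div_mul_cancel₀ _ hr'0.ne', add_smul]
    abel
  have hdown : -((1 - θ) * κ) + θ * t' ∈ chord u (r • x) M := by
    have h1 := hb.convex (hb.neg_mem _ hκM) ht' (show (0:ℝ) ≤ 1 - θ by linarith) hθ0.le (by ring)
    unfold chord
    simp only [mem_ofPred_eq]
    convert h1 using 1
    rw [smul_add, smul_smul, smul_neg, smul_smul, smul_smul, hθ, div_mul_cancel₀ _ hr'0.ne',
      add_smul, neg_smul]
    abel
  have hne : (chord u (r • x) M).Nonempty := ⟨_, hup⟩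
  refine ⟨hne, ?_⟩
  obtain ⟨hle, hIcc⟩ := chord_eq hu x hb.isCompact hb.convex hne
  have hlt : bot u x M r < top u x M r := by
    rw [hIcc] at hup hdown
    have : 0 < (1 - θ) * κ := by
      have : 0 < 1 - θ := by linarith
      positivity
    linarith [hup.2, hdown.1]
  set lam : ℝ := (top u x M r - bot u x M r) / 2 with hlam
  have hrx : ⟪r • x, u⟫ = 0 := by rw [inner_smul_left, hx]; simp
  have hchN : chord u (r • x) (sym u M) = Icc (-lam) lam := by
    have h1 := chord_sym_Icc hu hrx hle hIcc
    rw [h1, hlam]
  set z : Eu d := r • x + lam • u with hz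
  have hzN : z ∈ sym u M := by
    have : lam ∈ chord u (r • x) (sym u M) := by
      rw [hchN]; constructor <;> linarith
    exact this
  have hzb : ∀ ε : ℝ, 0 < ε → (1 + ε) • z ∉ sym u M := by
    intro ε hε hmem
    obtain ⟨μ, hμ, hμN⟩ := hN.body.exists_small u
    have h1 := hN.body.convex hmem hμN (show (0:ℝ) ≤ 1 / (1 + ε) by positivity)
      (show (0:ℝ) ≤ ε / (1 + ε) by positivity) (by field_simp)
    have h2 : lam + ε / (1 + ε) * μ ∈ chord u (r • x) (sym u M) := by
      unfold chord
      simp only [mem_ofPred_eq]
      convert h1 using 1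
      rw [smul_smul, one_div, inv_mul_cancel₀ (by positivity : (1 + ε) ≠ 0), one_smul, hz,
        smul_smul, add_smul]
      abel
    rw [hchN] at h2
    have : 0 < ε / (1 + ε) * μ := by positivity
    linarith [h2.2]
  obtain ⟨w, j, hwj, hwN, hwC⟩ := hN.touch hzN hzb
  obtain ⟨y, a, b, hy, ha, hbb, hwe⟩ := lift hu hb.isCompact hb.convex w hwN
  have hwe' : w = fun j => y j + ((1 / 2) * a j + (-1 / 2) * b j) • u := funext hwe
  have hlin := om_lin hu y hy a b (1 / 2) (-1 / 2)
  rw [← hwe'] at hlin
  -- decomposition at j
  have hdec := decomp_unique hu (hy j) hrx (by rw [← hwe j, hwj, hz])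
  obtain ⟨hd1, hd2⟩ := hdec
  have haj : a j = top u x M r ∧ b j = bot u x M r := by
    have h1 : a j ∈ chord u (r • x) M := by
      have := ha j; rw [hd2] at this; exact this
    have h2 : b j ∈ chord u (r • x) M := by
      have := hbb j; rw [hd2] at this; exact this
    rw [hIcc] at h1 h2
    constructor <;> linarith [h1.1, h1.2, h2.1, h2.2]
  set p : Fin d → Eu d := fun j => y j + a j • u with hp
  set q : Fin d → Eu d := fun j => y j + b j • u with hq
  have hPC := abs_le.1 (h.bd p ha)
  have hQC := abs_le.1 (h.bd q hbb)
  have hCpos := h.pos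
  obtain ⟨σ, hσ, hPσ, hQσ⟩ : ∃ σ : ℝ, σ * σ = 1 ∧ om d p = σ * C ∧ om d q = -σ * C := by
    rcases abs_cases (om d w) with ⟨he, _⟩ | ⟨he, _⟩
    · refine ⟨1, by norm_num, ?_, ?_⟩ <;> linarith [hPC.1, hPC.2, hQC.1, hQC.2]
    · refine ⟨-1, by norm_num, ?_, ?_⟩ <;> linarith [hPC.1, hPC.2, hQC.1, hQC.2]
  have hupd : om d (Function.update p j u) = om d (Function.update q j u) := by
    have h1 := om_lin hu (Function.update y j 0) (by
      intro i
      by_cases hij : i = j
      · subst hij; rw [Function.update_self]; simp
      · rw [Function.update_of_ne hij]; exact hy i)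
      (Function.update a j 1) (Function.update b j 1) 1 (-1)
    have h2 : (fun i => Function.update y j 0 i + Function.update a j 1 i • u) =
        Function.update p j u := by
      ext1 i
      by_cases hij : i = j
      · subst hij; simp
      · rw [Function.update_of_ne hij, Function.update_of_ne hij, Function.update_of_ne hij]
    have h3 : (fun i => Function.update y j 0 i + Function.update b j 1 i • u) =
        Function.update q j u := by
      ext1 i
      by_cases hij : i = j
      · subst hij; simp
      · rw [Function.update_of_ne hij, Function.update_of_ne hij, Function.update_of_ne hij]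
    rw [h2, h3] at h1
    have h4 : om d (fun i => Function.update y j 0 i +
        (1 * Function.update a j 1 i + -1 * Function.update b j 1 i) • u) = 0 := by
      apply (om d).map_coord_zero j
      simp
    rw [h4] at h1
    linarith
  set c : ℝ := σ / C * om d (Function.update p j u) with hc
  set f : ℝ := σ / C * om d (Function.update p j x) with hf
  set g : ℝ := -σ / C * om d (Function.update q j x) with hg
  have hF : ∀ s t : ℝ, s • x + t • u ∈ M → c * t + s * f ≤ 1 := by
    intro s t hst
    have h1 : |om d (Function.update p j (s • x + t • u))| ≤ C := by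
      apply h.bd
      intro i
      by_cases hij : i = j
      · subst hij; rw [Function.update_self]; exact hst
      · rw [Function.update_of_ne hij]; exact ha i
    rw [AlternatingMap.map_update_add, AlternatingMap.map_update_smul,
      AlternatingMap.map_update_smul, smul_eq_mul, smul_eq_mul] at h1
    have h2 : c * t + s * f = σ / C * (s * om d (Function.update p j x) +
      t * om d (Function.update p j u)) := by rw [hc, hf]; ring
    rw [h2]
    have h3 : |σ / C * (s * om d (Function.update p j x) +
      t * om d (Function.update p j u))| ≤ 1 := by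
      rw [abs_mul, abs_div, abs_of_pos hCpos]
      have hσ1 : |σ| = 1 := by
        have : |σ| * |σ| = 1 := by rw [← abs_mul, hσ, abs_one]
        nlinarith [abs_nonneg σ]
      rw [hσ1, one_div, inv_mul_le_iff₀ hCpos, mul_one]
      exact h1
    exact (abs_le.1 h3).2
  have hG : ∀ s t : ℝ, s • x + t • u ∈ M → -c * t + s * g ≤ 1 := by
    intro s t hst
    have h1 : |om d (Function.update q j (s • x + t • u))| ≤ C := by
      apply h.bd
      intro i
      by_cases hij : i = j
      · subst hij; rw [Function.update_self]; exact hst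
      · rw [Function.update_of_ne hij]; exact hbb i
    rw [AlternatingMap.map_update_add, AlternatingMap.map_update_smul,
      AlternatingMap.map_update_smul, smul_eq_mul, smul_eq_mul] at h1
    have h2 : -c * t + s * g = -σ / C * (s * om d (Function.update q j x) +
      t * om d (Function.update q j u)) := by rw [hc, hg, hupd]; ring
    rw [h2]
    have h3 : |-σ / C * (s * om d (Function.update q j x) +
      t * om d (Function.update q j u))| ≤ 1 := by
      rw [abs_mul, abs_div, abs_of_pos hCpos, abs_neg]
      have hσ1 : |σ| = 1 := by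
        have : |σ| * |σ| = 1 := by rw [← abs_mul, hσ, abs_one]
        nlinarith [abs_nonneg σ]
      rw [hσ1, one_div, inv_mul_le_iff₀ hCpos, mul_one]
      exact h1
    exact (abs_le.1 h3).2
  have hFr : c * top u x M r + r * f = 1 := by
    have h1 : Function.update p j (r • x + top u x M r • u) = p := by
      have : p j = r • x + top u x M r • u := by
        simp only [hp]
        rw [hd2, haj.1]
      rw [← this, Function.update_eq_self]
    have h2 : om d p = r * om d (Function.update p j x) +
        top u x M r * om d (Function.update p j u) := by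
      conv_lhs => rw [← h1]
      rw [AlternatingMap.map_update_add, AlternatingMap.map_update_smul,
        AlternatingMap.map_update_smul, smul_eq_mul, smul_eq_mul]
    have h3 : c * top u x M r + r * f = σ / C * om d p := by
      rw [h2, hc, hf]; ring
    rw [h3, hPσ]
    field_simp
    nlinarith [hσ]
  have hGr : -c * bot u x M r + r * g = 1 := by
    have h1 : Function.update q j (r • x + bot u x M r • u) = q := by
      have : q j = r • x + bot u x M r • u := by
        simp only [hq]
        rw [hd2, haj.2]
      rw [← this, Function.update_eq_self]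
    have h2 : om d q = r * om d (Function.update q j x) +
        bot u x M r * om d (Function.update q j u) := by
      conv_lhs => rw [← h1]
      rw [AlternatingMap.map_update_add, AlternatingMap.map_update_smul,
        AlternatingMap.map_update_smul, smul_eq_mul, smul_eq_mul]
    have h3 : -c * bot u x M r + r * g = -σ / C * om d q := by
      rw [h2, hc, hg, hupd]; ring
    rw [h3, hQσ]
    field_simp
    nlinarith [hσ]
  have hc0 : 0 < c := by
    have hbot : r • x + bot u x M r • u ∈ M := by
      have : bot u x M r ∈ chord u (r • x) M := by rw [hIcc]; exact ⟨le_rfl, hle⟩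
      exact this
    have h1 := hF r _ hbot
    have h2 : 0 ≤ c := by
      by_contra hneg
      push Not at hneg
      nlinarith
    rcases eq_or_lt_of_le h2 with h3 | h3
    · exfalso
      have h4 := hF r' t' ht'
      rw [← h3] at h4 hFr
      simp only [zero_mul, zero_add] at h4 hFr
      have : 0 < f := by
        by_contra hneg
        push Not at hneg
        nlinarith
      nlinarith
    · exact h3
  refine ⟨c, f, g, hc0, hFr, hGr, ?_⟩
  intro s hs
  obtain ⟨hle', hIcc'⟩ := chord_eq hu x hb.isCompact hb.convex hs
  constructor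
  · apply hF
    have : top u x M s ∈ chord u (s • x) M := by rw [hIcc']; exact ⟨hle', le_rfl⟩
    exact this
  · apply hG
    have : bot u x M s ∈ chord u (s • x) M := by rw [hIcc']; exact ⟨le_rfl, hle'⟩
    exact this

/-- The analytic lemma. -/
lemma const_of_ineq {R : ℝ} (A B lam : ℝ → ℝ)
    (h : ∀ r ∈ Ioo 0 R, ∀ s ∈ Ioo 0 R, s * |A s - A r| + lam s - lam r ≤ (s - r) * B r) :
    ∀ r ∈ Ioo 0 R, ∀ s ∈ Ioo 0 R, A r = A s := by
  have key : ∀ r ∈ Ioo 0 R, ∀ s ∈ Ioo 0 R, r < s → A r = A s := by
    intro r hr s hs hrs
    have hr0 := hr.1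
    have hstep : ∀ a ∈ Icc r s, ∀ b ∈ Icc r s, a ≤ b →
        2 * r * |A b - A a| ≤ (b - a) * (B a - B b) := by
      intro a ha b hb hab
      have ha' : a ∈ Ioo 0 R := ⟨hr0.trans_le ha.1, ha.2.trans_lt hs.2⟩
      have hb' : b ∈ Ioo 0 R := ⟨hr0.trans_le hb.1, hb.2.trans_lt hs.2⟩
      have h1 := h a ha' b hb'
      have h2 := h b hb' a ha'
      rw [abs_sub_comm] at h2
      have h3 : 2 * r * |A b - A a| ≤ (a + b) * |A b - A a| := by
        apply mul_le_mul_of_nonneg_right _ (abs_nonneg _)
        linarith [ha.1, hb.1]
      nlinarith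
    have hn : ∀ n : ℕ, 0 < n → 2 * r * |A s - A r| ≤ (s - r) / n * (B r - B s) := by
      intro n hn
      have hn' : (0:ℝ) < n := by exact_mod_cast hn
      set t : ℕ → ℝ := fun k => r + k * ((s - r) / n) with ht
      have hk : ∀ k : ℕ, k ≤ n → 2 * r * |A (t k) - A r| ≤ (s - r) / n * (B r - B (t k)) := by
        intro k
        induction k with
        | zero =>
          intro _
          have : t 0 = r := by simp [ht]
          rw [this]; simp
        | succ k ih =>
          intro hkn
          have h1 := ih (by omega)
          have hδ : 0 < (s - r) / n := div_pos (by linarith) hn'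
          have hmem : ∀ m : ℕ, m ≤ n → t m ∈ Icc r s := by
            intro m hm
            have hm' : (m : ℝ) ≤ n := by exact_mod_cast hm
            simp only [ht]
            constructor
            · have : (0:ℝ) ≤ m * ((s - r) / n) := by positivity
              linarith
            · have : (m : ℝ) * ((s - r) / n) ≤ n * ((s - r) / n) := by gcongr
              have h2 : (n : ℝ) * ((s - r) / n) = s - r := by field_simp
              linarith
          have h2 := hstep (t k) (hmem k (by omega)) (t (k + 1)) (hmem _ hkn) (by
            simp only [ht]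
            push_cast
            nlinarith)
          have h3 : t (k + 1) - t k = (s - r) / n := by
            simp only [ht]; push_cast; ring
          rw [h3] at h2
          have h4 : |A (t (k + 1)) - A r| ≤ |A (t (k + 1)) - A (t k)| + |A (t k) - A r| :=
            abs_sub_le _ _ _
          have h5 : 2 * r * |A (t (k + 1)) - A r| ≤
              2 * r * (|A (t (k + 1)) - A (t k)| + |A (t k) - A r|) := by gcongr
          nlinarith
      have h1 := hk n le_rfl
      have h2 : t n = s := by
        simp only [ht]
        field_simp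
        ring
      rw [h2] at h1
      exact h1
    by_contra hne
    have hpos : 0 < |A s - A r| := by
      rw [abs_pos, sub_ne_zero]; exact fun h => hne h.symm
    have hpos2 : 0 < 2 * r * |A s - A r| := by positivity
    obtain ⟨n, hn1⟩ := exists_nat_gt (((s - r) * (B r - B s)) / (2 * r * |A s - A r|))
    rw [div_lt_iff₀ hpos2] at hn1
    have h1 := hn (n + 1) (Nat.succ_pos n)
    push_cast at h1
    have hn0 : (0:ℝ) < (n:ℝ) + 1 := by positivity
    rw [div_mul_eq_mul_div, le_div_iff₀ hn0] at h1
    nlinarith
  intro r hr s hs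
  rcases lt_trichotomy r s with h1 | h1 | h1
  · exact key r hr s hs h1
  · rw [h1]
  · exact (key s hs r hr h1).symm

end Pool.Agent.H318R3.GM
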