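import Pool.Agent.H318R3.GM.Det

set_option autoImplicit false

open MeasureTheory Set Filter Topology Metric
open scoped RealInnerProductSpace ENNReal

namespace Pool.Agent.H318R3.GM

variable {d : ℕ}

/-- The linear map sending the standard basis to `v`. -/
noncomputable def TT (v : Fin d → Eu d) : Eu d →ₗ[ℝ] Eu d :=
  (EuclideanSpace.basisFun (Fin d) ℝ).toBasis.constr ℝ v

lemma TT_apply (v : Fin d → Eu d) (x : Eu d) : TT v x = ∑ i, x i • v i := by
  unfold TT
  rw [Module.Basis.constr_apply_fintype]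
  apply Finset.sum_congr rfl
  intro i _
  simp [Module.Basis.equivFun_apply]

lemma TT_det (v : Fin d → Eu d) : LinearMap.det (TT v) = om d v := by
  have h := (EuclideanSpace.basisFun (Fin d) ℝ).toBasis.det_comp (TT v)
    (EuclideanSpace.basisFun (Fin d) ℝ).toBasis
  rw [Module.Basis.det_self, mul_one] at h
  rw [← h]
  unfold om
  congr 1
  ext1 i
  unfold TT
  simp only [Function.comp]
  rw [Module.Basis.constr_basis]

/-- The cross-polytope `conv {±v_1, …, ±v_d}`. -/
def crossP (v : Fin d → Eu d) : Set (Eu d) :=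
  convexHull ℝ (Set.range v ∪ Set.range fun i => -v i)

lemma cross_image (hd : 0 < d) (v : Fin d → Eu d) :
    crossP v = TT v '' {x : Eu d | ∑ i, |x i| ≤ 1} := by
  apply Subset.antisymm
  · apply convexHull_min
    · rintro _ (⟨i, rfl⟩ | ⟨i, rfl⟩)
      · refine ⟨EuclideanSpace.single i 1, ?_, ?_⟩
        · simp only [mem_ofPred_eq]
          rw [Finset.sum_eq_single i]
          · simp
          · intro j _ hj; simp [hj]
          · simp
        · rw [TT_apply, Finset.sum_eq_single i]
          · simp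
          · intro j _ hj; simp [hj]
          · simp
      · refine ⟨-EuclideanSpace.single i 1, ?_, ?_⟩
        · simp only [mem_ofPred_eq]
          rw [Finset.sum_eq_single i]
          · simp
          · intro j _ hj; simp [hj]
          · simp
        · rw [map_neg, TT_apply, Finset.sum_eq_single i]
          · simp
          · intro j _ hj; simp [hj]
          · simp
    · apply Convex.linear_image
      intro x hx y hy a b ha hb hab
      simp only [mem_ofPred_eq] at hx hy ⊢
      calc ∑ i, |(a • x + b • y) i| ≤ ∑ i, (a * |x i| + b * |y i|) := by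
            apply Finset.sum_le_sum
            intro i _
            simp only [PiLp.add_apply, PiLp.smul_apply, smul_eq_mul]
            refine (abs_add_le _ _).trans ?_
            rw [abs_mul, abs_mul, abs_of_nonneg ha, abs_of_nonneg hb]
        _ = a * ∑ i, |x i| + b * ∑ i, |y i| := by
            rw [Finset.sum_add_distrib, Finset.mul_sum, Finset.mul_sum]
        _ ≤ a * 1 + b * 1 := by gcongr
        _ = 1 := by linarith
  · rintro _ ⟨x, hx, rfl⟩
    simp only [mem_ofPred_eq] at hx
    rw [TT_apply]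
    have hconv : Convex ℝ (crossP v) := convex_convexHull ℝ _
    have hv : ∀ i, v i ∈ crossP v := fun i => subset_convexHull ℝ _ (Or.inl ⟨i, rfl⟩)
    have hnv : ∀ i, -v i ∈ crossP v := fun i => subset_convexHull ℝ _ (Or.inr ⟨i, rfl⟩)
    have h0 : (0 : Eu d) ∈ crossP v := by
      have := hconv (hv ⟨0, hd⟩) (hnv ⟨0, hd⟩) (show (0:ℝ) ≤ 1 / 2 by norm_num)
        (show (0:ℝ) ≤ 1 / 2 by norm_num) (by norm_num)
      simpa using this
    set A : ℝ := ∑ i, |x i| with hA
    have hA0 : 0 ≤ A := Finset.sum_nonneg fun i _ => abs_nonneg _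
    rcases eq_or_lt_of_le hA0 with hA0 | hA0
    · have hz : ∀ i, x i = 0 := by
        intro i
        have := (Finset.sum_eq_zero_iff_of_nonneg (fun i _ => abs_nonneg (x i))).1 hA0.symm i
          (Finset.mem_univ i)
        exact abs_eq_zero.1 this
      simp only [hz, zero_smul, Finset.sum_const_zero]
      exact h0
    · have hmem : ∑ i, (|x i| / A) • ((SignType.sign (x i) : ℝ) • v i) ∈ crossP v := by
        apply hconv.sum_mem
        · intro i _; positivity
        · rw [← Finset.sum_div, div_self hA0.ne']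
        · intro i _
          rcases lt_trichotomy (x i) 0 with h | h | h
          · rw [sign_neg h]; simpa using hnv i
          · rw [h]; simpa using h0
          · rw [sign_pos h]; simpa using hv i
      have h2 := hconv.smul_mem_of_zero_mem h0 hmem ⟨hA0.le, hx⟩
      convert h2 using 1
      rw [Finset.smul_sum]
      apply Finset.sum_congr rfl
      intro i _
      rw [smul_smul, smul_smul]
      congr 1
      have : |x i| * (SignType.sign (x i) : ℝ) = x i := abs_mul_sign _
      field_simp
      exact this.symm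

lemma vol_std (hd : 0 < d) : volume {x : Eu d | ∑ i, |x i| ≤ 1} =
    ENNReal.ofReal (2 ^ d / (d.factorial : ℝ)) := by
  haveI : Nonempty (Fin d) := ⟨⟨0, hd⟩⟩
  have h1 := MeasureTheory.volume_sum_rpow_le (Fin d) (le_refl (1 : ℝ)) 1
  have h2 := (EuclideanSpace.volume_preserving_symm_measurableEquiv_toLp (Fin d)).symm
  have h3 : {x : Eu d | ∑ i, |x i| ≤ 1} =
      (MeasurableEquiv.toLp 2 (Fin d → ℝ)).symm ⁻¹'
        {x : Fin d → ℝ | (∑ i, |x i| ^ (1:ℝ)) ^ (1 / (1:ℝ)) ≤ 1} := by
    ext x
    simp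
  rw [h3, (EuclideanSpace.volume_preserving_symm_measurableEquiv_toLp (Fin d)).measure_preimage_equiv,
    h1]
  simp only [ENNReal.ofReal_one, one_pow, one_mul, Fintype.card_fin, div_one]
  rw [Real.Gamma_nat_eq_factorial]
  congr 3
  rw [show (1:ℝ) + 1 = 2 by norm_num, Real.Gamma_two]
  norm_num

lemma vol_cross (hd : 0 < d) (v : Fin d → Eu d) :
    (volume (crossP v)).toReal = 2 ^ d / (d.factorial : ℝ) * |om d v| := by
  rw [cross_image hd, Measure.addHaar_image_linearMap, TT_det, vol_std hd, ENNReal.toReal_mul,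
    ENNReal.toReal_ofReal (abs_nonneg _), ENNReal.toReal_ofReal (by positivity), mul_comm]

/-- o-symmetric convex body. -/
structure IsSymmBody (M : Set (Eu d)) : Prop where
  isCompact : IsCompact M
  convex : Convex ℝ M
  interior_nonempty : (interior M).Nonempty
  neg_mem : ∀ x ∈ M, -x ∈ M

/-- The largest volume of an inscribed cross-polytope. -/
noncomputable def maxCross (M : Set (Eu d)) : ℝ :=
  sSup {V : ℝ | ∃ v : Fin d → Eu d, LinearIndependent ℝ v ∧ (∀ i, v i ∈ M) ∧
    V = (volume (crossP v)).toReal}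

/-- Gromov's mass of `M`. -/
noncomputable def gromovMass (M : Set (Eu d)) : ℝ :=
  2 ^ d / (d.factorial : ℝ) * ((volume M).toReal / maxCross M)

/-- The largest determinant. -/
lemma exists_max {M : Set (Eu d)} (hM : IsCompact M) (hint : (interior M).Nonempty) :
    ∃ C : ℝ, 0 < C ∧ Bd C M ∧ ∃ v : Fin d → Eu d, (∀ i, v i ∈ M) ∧ |om d v| = C := by
  have hne : M.Nonempty := hint.mono interior_subset
  have hcomp : IsCompact {v : Fin d → Eu d | ∀ i, v i ∈ M} := by
    have := isCompact_univ_pi (fun _ : Fin d => hM)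
    convert this using 1
    ext v; simp
  obtain ⟨m, hm⟩ := hne
  obtain ⟨v, hv, hmax⟩ := hcomp.exists_isMaxOn (f := fun v => |om d v|) ⟨fun _ => m, fun _ => hm⟩
    (om_cont d).abs.continuousOn
  refine ⟨|om d v|, ?_, fun w hw => hmax hw, v, hv, rfl⟩
  by_contra hneg
  have hz : |om d v| = 0 := le_antisymm (not_lt.1 hneg) (abs_nonneg _)
  have hall : ∀ w : Fin d → Eu d, (∀ i, w i ∈ M) → om d w = 0 := by
    intro w hw
    have h1 : |om d w| ≤ |om d v| := hmax hw
    rw [hz] at h1
    exact abs_eq_zero.1 (le_antisymm h1 (abs_nonneg _))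
  -- M spans the space
  have hspan : Submodule.span ℝ M = ⊤ := by
    have h1 := hint
    by_contra hne
    obtain ⟨z, hz⟩ := hint
    have h2 : M ⊆ (Submodule.span ℝ M : Set (Eu d)) := Submodule.subset_span
    have h3 : (interior (Submodule.span ℝ M : Set (Eu d))).Nonempty :=
      ⟨z, interior_mono h2 hz⟩
    exact hne (Submodule.eq_top_of_nonempty_interior' _ h3)
  obtain ⟨b, hbM, hbspan, hbli⟩ := exists_linearIndependent ℝ M
  rw [hspan] at hbspan
  let B : Module.Basis b ℝ (Eu d) := Module.Basis.mk hbli (by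
    simp [hbspan])
  haveI : Fintype b := FiniteDimensional.fintypeBasisIndex B
  have hcard : Fintype.card b = d := by
    rw [← Module.finrank_eq_card_basis B]; simp
  let e : b ≃ Fin d := Fintype.equivFinOfCardEq hcard
  let B' := B.reindex e
  have h1 := hall B' (by
    intro i
    simp only [B', Module.Basis.coe_reindex, Function.comp, B, Module.Basis.mk_apply]
    exact hbM (e.symm i).2)
  have h2 : IsUnit (om d B') := by
    unfold om
    exact Module.Basis.isUnit_det _ B'
  rw [h1] at h2
  exact not_isUnit_zero h2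

lemma om_ne_zero_iff (v : Fin d → Eu d) : om d v ≠ 0 ↔ LinearIndependent ℝ v := by
  unfold om
  constructor
  · intro h
    exact ((Module.Basis.is_basis_iff_det _).2 (isUnit_iff_ne_zero.2 h)).1
  · intro h
    have h2 : Submodule.span ℝ (Set.range v) = ⊤ :=
      h.span_eq_top_of_card_eq_finrank' (by simp)
    exact ((Module.Basis.is_basis_iff_det _).1 ⟨h, h2⟩).ne_zero

lemma maxCross_eq (hd : 0 < d) {M : Set (Eu d)} {C : ℝ} (hC : 0 < C) (hB : Bd C M)
    (hv : ∃ v : Fin d → Eu d, (∀ i, v i ∈ M) ∧ |om d v| = C) :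
    maxCross M = 2 ^ d / (d.factorial : ℝ) * C := by
  unfold maxCross
  apply IsGreatest.csSup_eq
  constructor
  · obtain ⟨v, hv, hvC⟩ := hv
    refine ⟨v, ?_, hv, ?_⟩
    · rw [← om_ne_zero_iff]
      intro h
      rw [h, abs_zero] at hvC
      exact hC.ne hvC
    · rw [vol_cross hd, hvC]
  · rintro V ⟨v, -, hv, rfl⟩
    rw [vol_cross hd]
    gcongr
    exact hB v hv

lemma gromovMass_eq (hd : 0 < d) {M : Set (Eu d)} {C : ℝ} (hC : 0 < C) (hB : Bd C M)
    (hv : ∃ v : Fin d → Eu d, (∀ i, v i ∈ M) ∧ |om d v| = C) :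
    gromovMass M = (volume M).toReal / C := by
  unfold gromovMass
  rw [maxCross_eq hd hC hB hv]
  have : (2:ℝ) ^ d / (d.factorial : ℝ) ≠ 0 := by positivity
  field_simp

theorem gromovMass_le (hd : 0 < d) {M : Set (Eu d)} (hM : IsSymmBody M) :
    gromovMass M ≤ kap d := by
  obtain ⟨C, hC, hB, hv⟩ := exists_max hM.isCompact hM.interior_nonempty
  rw [gromovMass_eq hd hC hB hv, div_le_iff₀ hC]
  exact vol_le hM.isCompact hM.convex hM.interior_nonempty hB

/-- Hadamard -/
lemma Bd_ball : Bd 1 (closedBall (0 : Eu d) 1) := by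
  intro v hv
  haveI : Fact (Module.finrank ℝ (Eu d) = d) := ⟨by simp⟩
  let o : Orientation ℝ (Eu d) (Fin d) := (EuclideanSpace.basisFun (Fin d) ℝ).toBasis.orientation
  have h1 := o.volumeForm_robust' (EuclideanSpace.basisFun (Fin d) ℝ) v
  have h2 := o.abs_volumeForm_apply_le v
  rw [h1] at h2
  refine h2.trans ?_
  apply Finset.prod_le_one
  · intro i _; exact norm_nonneg _
  · intro i _; exact mem_closedBall_zero_iff.1 (hv i)

lemma om_map (A : Eu d →ₗ[ℝ] Eu d) (v : Fin d → Eu d) :
    om d (fun i => A (v i)) = LinearMap.det A * om d v := by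
  unfold om
  exact Module.Basis.det_comp _ A v

lemma ellipsoid_body (A : Eu d ≃ₗ[ℝ] Eu d) : IsSymmBody (A '' closedBall (0 : Eu d) 1) := by
  have hAc : Continuous A := LinearMap.continuous_of_finiteDimensional (A : Eu d →ₗ[ℝ] Eu d)
  refine ⟨(isCompact_closedBall _ _).image hAc,
    (convex_closedBall _ _).is_linear_image (A : Eu d →ₗ[ℝ] Eu d).isLinear, ?_, ?_⟩
  · have h1 : IsOpenMap A :=
      (A.toContinuousLinearEquiv).toHomeomorph.isOpenMap
    have h2 : IsOpen (A '' ball (0 : Eu d) 1) := h1 _ isOpen_ball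
    refine ⟨0, ?_⟩
    rw [mem_interior]
    exact ⟨_, image_mono ball_subset_closedBall, h2, ⟨0, by simp, by simp⟩⟩
  · rintro _ ⟨x, hx, rfl⟩
    exact ⟨-x, by simpa using hx, by simp⟩

theorem gromovMass_ellipsoid (hd : 0 < d) (A : Eu d ≃ₗ[ℝ] Eu d) :
    gromovMass (A '' closedBall (0 : Eu d) 1) = kap d := by
  have hdet : LinearMap.det (A : Eu d →ₗ[ℝ] Eu d) ≠ 0 := (LinearEquiv.isUnit_det' A).ne_zero
  have hC : 0 < |LinearMap.det (A : Eu d →ₗ[ℝ] Eu d)| := abs_pos.2 hdet
  rw [gromovMass_eq hd hC]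
  · have h1 := Measure.addHaar_image_linearMap (volume : Measure (Eu d)) (A : Eu d →ₗ[ℝ] Eu d)
      (closedBall 0 1)
    have h2 : (A : Eu d →ₗ[ℝ] Eu d) '' closedBall (0 : Eu d) 1 = A '' closedBall (0 : Eu d) 1 := rfl
    rw [h2] at h1
    rw [h1, ENNReal.toReal_mul, ENNReal.toReal_ofReal (abs_nonneg _)]
    unfold kap
    field_simp
  · intro v hv
    choose w hw hwv using hv
    have : v = fun i => (A : Eu d →ₗ[ℝ] Eu d) (w i) := by
      ext1 i; exact (hwv i).symm
    rw [this, om_map, abs_mul]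
    have := Bd_ball w hw
    nlinarith [abs_nonneg (LinearMap.det (A : Eu d →ₗ[ℝ] Eu d))]
  · refine ⟨fun i => (A : Eu d →ₗ[ℝ] Eu d) ((1:ℝ) • EuclideanSpace.basisFun (Fin d) ℝ i), ?_, ?_⟩
    · intro i
      exact ⟨_, by simp, rfl⟩
    · rw [om_map, om_basis]
      simp

end Pool.Agent.H318R3.GM
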