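import Pool.Agent.H318R3.GM.Ball

set_option autoImplicit false

open MeasureTheory Set Filter Topology Metric
open scoped RealInnerProductSpace ENNReal

namespace Pool.Agent.H318R3.GM

open Pool.Agent.H318R3.St

/-- Coordinate space. -/
abbrev Eu (d : ℕ) := EuclideanSpace ℝ (Fin d)

/-- The determinant as an alternating form. -/
noncomputable def om (d : ℕ) : (Eu d) [⋀^Fin d]→ₗ[ℝ] ℝ :=
  (EuclideanSpace.basisFun (Fin d) ℝ).toBasis.det

variable {d : ℕ}

lemma om_eq (b : OrthonormalBasis (Fin d) ℝ (Eu d)) :
    ∃ c : ℝ, |c| = 1 ∧ ∀ v, om d v = c * b.toBasis.det v := by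
  refine ⟨om d b.toBasis, ?_, ?_⟩
  · rcases (EuclideanSpace.basisFun (Fin d) ℝ).det_to_matrix_orthonormalBasis_real b with h | h
    · have : om d b.toBasis = 1 := by
        rw [← h]; unfold om; simp
      rw [this]; norm_num
    · have : om d b.toBasis = -1 := by
        rw [← h]; unfold om; simp
      rw [this]; norm_num
  · intro v
    have h := (om d).eq_smul_basis_det b.toBasis
    conv_lhs => rw [h]
    simp

lemma exists_onb {u : Eu d} (hu : ‖u‖ = 1) :
    ∃ (b : OrthonormalBasis (Fin d) ℝ (Eu d)) (i0 : Fin d), b i0 = u := by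
  have hd : 0 < d := by
    rcases Nat.eq_zero_or_pos d with h | h
    · subst h
      have : u = 0 := Subsingleton.elim _ _
      rw [this, norm_zero] at hu
      norm_num at hu
    · exact h
  set i0 : Fin d := ⟨0, hd⟩
  have hv : Orthonormal ℝ (({i0} : Set (Fin d)).domRestrict (fun _ => u)) := by
    constructor
    · intro i; exact hu
    · intro i j hij
      exact absurd (Subtype.ext (i.2.trans j.2.symm)) hij
  obtain ⟨b, hb⟩ := hv.exists_orthonormalBasis_extension_of_card_eq (by simp)
  exact ⟨b, i0, hb i0 rfl⟩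

/-- The form is linear in the heights over the hyperplane orthogonal to `u`. -/
lemma om_lin {u : Eu d} (hu : ‖u‖ = 1) (x : Fin d → Eu d) (hx : ∀ j, ⟪x j, u⟫ = 0)
    (s t : Fin d → ℝ) (α β : ℝ) :
    om d (fun j => x j + (α * s j + β * t j) • u) =
      α * om d (fun j => x j + s j • u) + β * om d (fun j => x j + t j • u) := by
  obtain ⟨b, i0, hb⟩ := exists_onb hu
  obtain ⟨c, -, hc⟩ := om_eq b
  rw [hc, hc, hc]
  have key : ∀ r : Fin d → ℝ, b.toBasis.det (fun j => x j + r j • u) =
      ((b.toBasis.toMatrix x).updateRow i0 r).det := by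
    intro r
    rw [Module.Basis.det_apply]
    congr 1
    ext i j
    rw [Module.Basis.toMatrix_apply, OrthonormalBasis.coe_toBasis_repr_apply,
      OrthonormalBasis.repr_apply_apply, inner_add_right, inner_smul_right]
    by_cases hi : i = i0
    · subst hi
      rw [Matrix.updateRow_self, hb, real_inner_comm, hx, inner_self_one hu]
      ring
    · rw [Matrix.updateRow_ne hi, Module.Basis.toMatrix_apply,
        OrthonormalBasis.coe_toBasis_repr_apply, OrthonormalBasis.repr_apply_apply, ← hb]
      have : ⟪b i, b i0⟫ = 0 := b.orthonormal.2 hi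
      rw [this]; ring
  rw [key, key, key]
  have : (fun j => α * s j + β * t j) = α • s + β • t := by
    ext j; simp
  rw [this, Matrix.det_updateRow_add, Matrix.det_updateRow_smul, Matrix.det_updateRow_smul]
  ring

/-- All `d`-tuples from `L` have determinant at most `C`. -/
def Bd (C : ℝ) (L : Set (Eu d)) : Prop := ∀ v : Fin d → Eu d, (∀ i, v i ∈ L) → |om d v| ≤ C

/-- lifting of a tuple of the symmetral -/
lemma lift {u : Eu d} (hu : ‖u‖ = 1) {L : Set (Eu d)} (hL : IsCompact L) (hc : Convex ℝ L)
    (w : Fin d → Eu d) (hw : ∀ j, w j ∈ sym u L) :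
    ∃ (x : Fin d → Eu d) (a b : Fin d → ℝ), (∀ j, ⟪x j, u⟫ = 0) ∧ (∀ j, x j + a j • u ∈ L) ∧
      (∀ j, x j + b j • u ∈ L) ∧ (∀ j, w j = x j + ((1 / 2) * a j + (-1 / 2) * b j) • u) := by
  have h : ∀ j, ∃ (x : Eu d) (a b : ℝ), ⟪x, u⟫ = 0 ∧ x + a • u ∈ L ∧ x + b • u ∈ L ∧
      w j = x + ((1 / 2) * a + (-1 / 2) * b) • u := by
    intro j
    have := hw j
    rw [sym_eq_image hu hL hc] at this
    obtain ⟨⟨p, q⟩, ⟨hp, hq, hpq⟩, he⟩ := this
    simp only at hp hq hpq he
    refine ⟨foot u p, ⟪p, u⟫, ⟪q, u⟫, foot_inner hu p, by rw [foot_add]; exact hp, ?_, ?_⟩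
    · have : foot u p = foot u q := by
        unfold foot
        rw [inner_sub_left, sub_smul] at hpq
        rw [sub_eq_sub_iff_sub_eq_sub]
        exact hpq
      rw [this, foot_add]; exact hq
    · have h1 : foot u p = foot u q := by
        unfold foot
        rw [inner_sub_left, sub_smul] at hpq
        rw [sub_eq_sub_iff_sub_eq_sub]
        exact hpq
      rw [← he]
      have h2 : p = foot u p + ⟪p, u⟫ • u := (foot_add u p).symm
      have h3 : refl u q = foot u p - ⟪q, u⟫ • u := by
        rw [h1, ← refl_line hu (foot_inner hu q), foot_add]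
      have h5 : (1 / 2 : ℝ) • (p + refl u q) =
          (1 / 2 : ℝ) • ((foot u p + ⟪p, u⟫ • u) + (foot u p - ⟪q, u⟫ • u)) := by
        rw [← h2, h3]
      rw [h5]
      module
  choose x a b h1 h2 h3 h4 using h
  exact ⟨x, a, b, h1, h2, h3, h4⟩

lemma Bd_sym {C : ℝ} {u : Eu d} (hu : ‖u‖ = 1) {L : Set (Eu d)} (hL : IsCompact L)
    (hc : Convex ℝ L) (h : Bd C L) : Bd C (sym u L) := by
  intro w hw
  obtain ⟨x, a, b, hx, ha, hb, hwe⟩ := lift hu hL hc w hw
  have : w = fun j => x j + ((1 / 2) * a j + (-1 / 2) * b j) • u := funext hwe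
  rw [this, om_lin hu x hx]
  have h1 := abs_le.1 (h _ ha)
  have h2 := abs_le.1 (h _ hb)
  rw [abs_le]
  constructor <;> linarith [h1.1, h1.2, h2.1, h2.2]

lemma om_cont (d : ℕ) : Continuous fun v : Fin d → Eu d => om d v := by
  unfold om
  simp only [Module.Basis.det_apply]
  apply Continuous.matrix_det
  refine continuous_matrix fun i j => ?_
  simp only [Module.Basis.toMatrix_apply, OrthonormalBasis.coe_toBasis_repr_apply,
    OrthonormalBasis.repr_apply_apply]
  fun_prop

lemma Bd_lim {C : ℝ} (A : ℕ → Set (Eu d)) (L : Set (Eu d))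
    (hA : ∀ k, IsCompact (A k) ∧ Convex ℝ (A k) ∧ (A k).Nonempty ∧ Bd C (A k))
    (hL : IsCompact L) (hLn : L.Nonempty)
    (hlim : Tendsto (fun k => hausdorffDist (A k) L) atTop (𝓝 0)) : Bd C L := by
  intro v hv
  have h : ∀ i, ∀ k, ∃ y ∈ A k, dist (v i) y ≤ hausdorffDist (A k) L := by
    intro i k
    obtain ⟨y, hy, he⟩ := (hA k).1.exists_infDist_eq_dist (hA k).2.2.1 (v i)
    refine ⟨y, hy, ?_⟩
    rw [← he, hausdorffDist_comm]
    exact infDist_le_hausdorffDist_of_mem (hv i) (haus_fin hLn (hA k).2.2.1 hL (hA k).1)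
  choose y hy hyd using h
  have hty : ∀ i, Tendsto (fun k => y i k) atTop (𝓝 (v i)) := by
    intro i
    rw [tendsto_iff_dist_tendsto_zero]
    refine squeeze_zero (fun _ => dist_nonneg) (fun k => ?_) hlim
    rw [dist_comm]
    exact hyd i k
  have h1 : Tendsto (fun k => |om d (fun i => y i k)|) atTop (𝓝 |om d v|) := by
    apply Tendsto.abs
    exact ((om_cont d).tendsto v).comp (tendsto_pi_nhds.2 hty)
  exact le_of_tendsto' h1 fun k => (hA k).2.2.2 _ fun i => hy i k

/-- The volume of the unit ball. -/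
noncomputable def kap (d : ℕ) : ℝ := (volume (closedBall (0 : Eu d) 1)).toReal

lemma om_basis (ρ : ℝ) : om d (fun i => ρ • (EuclideanSpace.basisFun (Fin d) ℝ i)) = ρ ^ d := by
  have h := (om d).toMultilinearMap.map_smul_univ (fun _ => ρ)
    (fun i => EuclideanSpace.basisFun (Fin d) ℝ i)
  simp only [Finset.prod_const, Finset.card_univ, Fintype.card_fin] at h
  have h2 : (om d) (fun i => EuclideanSpace.basisFun (Fin d) ℝ i) = 1 := by
    unfold om
    have := (EuclideanSpace.basisFun (Fin d) ℝ).toBasis.det_self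
    rw [OrthonormalBasis.coe_toBasis] at this
    exact this
  have h3 : om d (fun i => ρ • (EuclideanSpace.basisFun (Fin d) ℝ i)) =
    ρ ^ d • (om d) (fun i => EuclideanSpace.basisFun (Fin d) ℝ i) := h
  rw [h3, h2, smul_eq_mul, mul_one]

/-- The volume bound. -/
theorem vol_le {C : ℝ} {K : Set (Eu d)} (hK : IsCompact K) (hc : Convex ℝ K)
    (hint : (interior K).Nonempty) (h : Bd C K) : (volume K).toReal ≤ kap d * C := by
  obtain ⟨ρ, hρ, hP, hV⟩ := exists_ball (Bd C) hK hc hint h
    (fun L u hu hL hLc hP => Bd_sym hu hL hLc hP)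
    (fun A L hA hL _ hLn hlim => Bd_lim A L hA hL hLn hlim)
  rw [← hV]
  have h1 : ρ ^ d ≤ C := by
    have := hP (fun i => ρ • (EuclideanSpace.basisFun (Fin d) ℝ i)) (by
      intro i
      rw [mem_closedBall_zero_iff, norm_smul, Real.norm_of_nonneg hρ]
      simp)
    rw [om_basis, abs_of_nonneg (by positivity)] at this
    exact this
  have h2 : volume (closedBall (0 : Eu d) ρ) = ENNReal.ofReal (ρ ^ d) * volume (closedBall (0 : Eu d) 1) := by
    have := Measure.addHaar_closedBall_mul (volume : Measure (Eu d)) (0 : Eu d) hρ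
      (show (0:ℝ) ≤ 1 by norm_num)
    rw [mul_one] at this
    rw [this]
    simp
  rw [h2, ENNReal.toReal_mul, ENNReal.toReal_ofReal (by positivity), mul_comm]
  unfold kap
  gcongr

/-- Passing to the convex hull. -/
lemma Bd_hull {C : ℝ} {S : Set (Eu d)} (h : Bd C S) : Bd C (convexHull ℝ S) := by
  have key : ∀ T : Finset (Fin d), ∀ v : Fin d → Eu d, (∀ i ∈ T, v i ∈ convexHull ℝ S) →
      (∀ i ∉ T, v i ∈ S) → |om d v| ≤ C := by
    intro T
    induction T using Finset.induction_on with
    | empty =>
      intro v _ h2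
      exact h v fun i => h2 i (Finset.notMem_empty i)
    | insert i T hi ih =>
      intro v h1 h2
      have hsub : convexHull ℝ S ⊆ {x | |om d (Function.update v i x)| ≤ C} := by
        apply convexHull_min
        · intro x hx
          apply ih
          · intro j hj
            have hji : j ≠ i := fun h => hi (h ▸ hj)
            rw [Function.update_of_ne hji]
            exact h1 j (Finset.mem_insert_of_mem hj)
          · intro j hj
            by_cases hji : j = i
            · subst hji; rw [Function.update_self]; exact hx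
            · rw [Function.update_of_ne hji]
              exact h2 j (by simp [hji, hj])
        · intro x hx y hy a b ha hb hab
          simp only [mem_ofPred_eq] at hx hy ⊢
          rw [AlternatingMap.map_update_add, AlternatingMap.map_update_smul,
            AlternatingMap.map_update_smul, smul_eq_mul, smul_eq_mul]
          have h1 := abs_le.1 hx
          have h2 := abs_le.1 hy
          rw [abs_le]
          constructor
          · nlinarith [h1.1, h2.1]
          · nlinarith [h1.2, h2.2]
      have := hsub (h1 i (Finset.mem_insert_self i T))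
      simpa using this
  intro v hv
  exact key Finset.univ v (fun i _ => hv i) (fun i hi => absurd (Finset.mem_univ i) hi)

end Pool.Agent.H318R3.GM
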