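import Pool.Agent.H318R3.GM.Cross

set_option autoImplicit false

open MeasureTheory Set Filter Topology Metric
open scoped RealInnerProductSpace ENNReal

namespace Pool.Agent.H318R3.GM

open Pool.Agent.H318R3.St

variable {d : ℕ}

/-- Extremal bodies. -/
structure Ext (C : ℝ) (M : Set (Eu d)) : Prop where
  body : IsSymmBody M
  pos : 0 < C
  bd : Bd C M
  vol : kap d * C ≤ (volume M).toReal

lemma Ext.symm {C : ℝ} {M : Set (Eu d)} (h : Ext C M) {u : Eu d} (hu : ‖u‖ = 1) :
    Ext C (sym u M) := by
  have hb := h.body
  have hne : M.Nonempty := hb.interior_nonempty.mono interior_subset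
  have hvol := sym_volume hu hb.isCompact hb.convex
  refine ⟨⟨sym_isCompact hu hb.isCompact hb.convex, sym_convex hu hb.isCompact hb.convex, ?_,
    sym_neg hu hb.isCompact hb.convex hb.neg_mem⟩, h.pos, Bd_sym hu hb.isCompact hb.convex h.bd, ?_⟩
  · apply interior_nonempty_of_vol (sym_convex hu hb.isCompact hb.convex)
      (sym_isCompact hu hb.isCompact hb.convex).isClosed
    rw [hvol]
    exact ((isOpen_interior.measure_pos volume hb.interior_nonempty).trans_le
      (measure_mono interior_subset)).ne'
  · rw [hvol]; exact h.vol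

/-- Every boundary point of an extremal body lies in a maximal tuple. -/
theorem Ext.touch {C : ℝ} {M : Set (Eu d)} (h : Ext C M) {z : Eu d} (hz : z ∈ M)
    (hzb : ∀ ε : ℝ, 0 < ε → (1 + ε) • z ∉ M) :
    ∃ (w : Fin d → Eu d) (j : Fin d), w j = z ∧ (∀ i, w i ∈ M) ∧ |om d w| = C := by
  have hb := h.body
  by_contra hcon
  push Not at hcon
  -- the tuples through z
  set S : Set (Fin d → Eu d) := {w | (∀ i, w i ∈ M) ∧ ∃ j, w j = z} with hS
  have hcomp : IsCompact S := by
    have h1 : IsCompact {w : Fin d → Eu d | ∀ i, w i ∈ M} := by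
      have := isCompact_univ_pi (fun _ : Fin d => hb.isCompact)
      convert this using 1
      ext v; simp
    have h2 : IsClosed {w : Fin d → Eu d | ∃ j, w j = z} := by
      have : {w : Fin d → Eu d | ∃ j, w j = z} = ⋃ j, {w | w j = z} := by ext; simp
      rw [this]
      exact isClosed_iUnion_of_finite fun j => isClosed_eq (continuous_apply j) continuous_const
    exact h1.inter_right h2
  obtain ⟨C', hC'0, hC'1, hC'2⟩ : ∃ C' : ℝ, 0 ≤ C' ∧ C' < C ∧ ∀ w ∈ S, |om d w| ≤ C' := by
    rcases S.eq_empty_or_nonempty with he | hne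
    · exact ⟨0, le_rfl, h.pos, fun w hw => by rw [he] at hw; exact absurd hw (notMem_empty _)⟩
    · obtain ⟨v, hv, hmax⟩ := hcomp.exists_isMaxOn (f := fun v => |om d v|) hne
        (om_cont d).abs.continuousOn
      refine ⟨|om d v|, abs_nonneg _, ?_, fun w hw => hmax hw⟩
      obtain ⟨hv1, j, hj⟩ := hv
      exact lt_of_le_of_ne (h.bd v hv1) (hcon v j hj hv1)
  -- choose ε
  obtain ⟨ε, hε, hεC⟩ : ∃ ε : ℝ, 0 < ε ∧ (1 + ε) * C' ≤ C := by
    rcases eq_or_lt_of_le hC'0 with h0 | h0
    · exact ⟨1, one_pos, by rw [← h0, mul_zero]; exact h.pos.le⟩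
    · refine ⟨C / C' - 1, ?_, ?_⟩
      · rw [sub_pos, one_lt_div h0]; exact hC'1
      · have : (1 + (C / C' - 1)) * C' = C := by field_simp; ring
        exact this.le
  set a : Eu d := (1 + ε) • z with ha
  have haM : a ∉ M := hzb ε hε
  set T : Set (Eu d) := M ∪ {a, -a} with hT
  have hBT : Bd C T := by
    intro w hw
    by_cases hall : ∀ i, w i ∈ M
    · exact h.bd w hall
    · push Not at hall
      obtain ⟨j, hj⟩ := hall
      have hjc : ∃ σ : ℝ, |σ| = 1 ∧ w j = σ • a := by
        rcases hw j with h1 | h1
        · exact absurd h1 hj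
        · rcases h1 with h1 | h1
          · exact ⟨1, by norm_num, by rw [h1, one_smul]⟩
          · exact ⟨-1, by norm_num, by rw [h1, neg_one_smul]⟩
      obtain ⟨σ, hσ, hwj⟩ := hjc
      by_cases hall2 : ∀ i, i ≠ j → w i ∈ M
      · have he : w = Function.update w j ((σ * (1 + ε)) • z) := by
          rw [← smul_smul, ← ha, ← hwj, Function.update_eq_self]
        rw [he, AlternatingMap.map_update_smul, smul_eq_mul, abs_mul, abs_mul, hσ, one_mul,
          abs_of_pos (by linarith : (0:ℝ) < 1 + ε)]
        have hm : Function.update w j z ∈ S := by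
          refine ⟨fun i => ?_, j, Function.update_self _ _ _⟩
          by_cases hij : i = j
          · subst hij; rw [Function.update_self]; exact hz
          · rw [Function.update_of_ne hij]; exact hall2 i hij
        have := hC'2 _ hm
        calc (1 + ε) * |om d (Function.update w j z)| ≤ (1 + ε) * C' := by gcongr
          _ ≤ C := hεC
      · push Not at hall2
        obtain ⟨i, hij, hi⟩ := hall2
        have hic : ∃ τ : ℝ, w i = τ • w j := by
          have hσ0 : σ ≠ 0 := by
            intro h0; rw [h0] at hσ; norm_num at hσ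
          have haj : a = σ⁻¹ • w j := by
            rw [hwj, smul_smul, inv_mul_cancel₀ hσ0, one_smul]
          rcases hw i with h1 | h1
          · exact absurd h1 hi
          · rcases h1 with h1 | h1
            · exact ⟨σ⁻¹, by rw [h1]; exact haj⟩
            · exact ⟨-σ⁻¹, by rw [h1, neg_smul, ← haj]⟩
        obtain ⟨τ, hτ⟩ := hic
        have he : w = Function.update w i (τ • w j) := by
          rw [← hτ, Function.update_eq_self]
        have hz0 : om d w = 0 := by
          rw [he, AlternatingMap.map_update_smul]
          rw [AlternatingMap.map_update_self _ _ hij, smul_zero]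
        rw [hz0, abs_zero]
        exact h.pos.le
  have hBH := Bd_hull hBT
  set H := closure (convexHull ℝ T) with hH
  have hTb : Bornology.IsBounded T := by
    rw [hT]
    exact hb.isCompact.isBounded.union (Set.toFinite _).isBounded
  have hHc : IsCompact H := by
    apply Metric.isCompact_of_isClosed_isBounded isClosed_closure
    exact (isBounded_convexHull.2 hTb).closure
  have hBH' : Bd C H := by
    intro v hv
    have hcl : IsClosed {w : Fin d → Eu d | |om d w| ≤ C} :=
      isClosed_le (om_cont d).abs continuous_const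
    have hsub : {w : Fin d → Eu d | ∀ i, w i ∈ convexHull ℝ T} ⊆ {w | |om d w| ≤ C} :=
      fun w hw => hBH w hw
    have h1 : v ∈ closure {w : Fin d → Eu d | ∀ i, w i ∈ convexHull ℝ T} := by
      have h2 : {w : Fin d → Eu d | ∀ i, w i ∈ convexHull ℝ T} =
        Set.pi univ fun _ => convexHull ℝ T := by ext; simp
      rw [h2, closure_pi_set]
      intro i _
      exact hv i
    exact closure_minimal hsub hcl h1
  have hMH : M ⊆ H := (subset_union_left.trans (subset_convexHull ℝ T)).trans subset_closure
  have hHconv : Convex ℝ H := (convex_convexHull ℝ T).closure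
  have hvolH : (volume H).toReal ≤ kap d * C :=
    vol_le hHc hHconv (hb.interior_nonempty.mono (interior_mono hMH)) hBH'
  have hvle : volume H ≤ volume M := by
    rw [← ENNReal.toReal_le_toReal hHc.measure_lt_top.ne hb.isCompact.measure_lt_top.ne]
    exact hvolH.trans h.vol
  have hnull : volume (H \ M) = 0 := by
    rw [measure_sdiff hMH hb.isCompact.measurableSet.nullMeasurableSet
      hb.isCompact.measure_lt_top.ne]
    exact tsub_eq_zero_of_le hvle
  have hsub : H ⊆ M := by
    apply subset_of_ae hHconv isClosed_closure hb.isCompact.isClosed _ hnull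
    have h0 : 0 < volume M := (isOpen_interior.measure_pos volume hb.interior_nonempty).trans_le
      (measure_mono interior_subset)
    exact (h0.trans_le (measure_mono hMH)).ne'
  apply haM
  apply hsub
  apply subset_closure
  apply subset_convexHull
  right; left; rfl

end Pool.Agent.H318R3.GM
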