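import Mathlib

set_option autoImplicit false

open MeasureTheory Set Filter Topology Metric
open scoped RealInnerProductSpace ENNReal

namespace Pool.Agent.H318R3.GM

/-- the plane -/
abbrev V2 := Fin 2 → ℝ

/-- the bracket -/
def br (a b : V2) : ℝ := a 0 * b 1 - a 1 * b 0

/-- the second moment form of `C` -/
noncomputable def Qf (C : Set V2) (a : V2) : ℝ := ∫ x in C, br x a ^ 2

lemma br_cont (a : V2) : Continuous fun x : V2 => br x a := by
  unfold br; fun_prop

lemma Qf_expand {C : Set V2} (hC : IsCompact C) :
    ∃ p q r : ℝ, ∀ a : V2, Qf C a = p * a 0 ^ 2 + 2 * q * (a 0 * a 1) + r * a 1 ^ 2 := by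
  refine ⟨∫ x in C, (x : V2) 1 ^ 2, -∫ x in C, (x : V2) 0 * x 1, ∫ x in C, (x : V2) 0 ^ 2, ?_⟩
  intro a
  have i1 : IntegrableOn (fun x : V2 => x 1 ^ 2) C :=
    (by fun_prop : Continuous fun x : V2 => x 1 ^ 2).continuousOn.integrableOn_compact hC
  have i2 : IntegrableOn (fun x : V2 => x 0 * x 1) C :=
    (by fun_prop : Continuous fun x : V2 => x 0 * x 1).continuousOn.integrableOn_compact hC
  have i3 : IntegrableOn (fun x : V2 => x 0 ^ 2) C :=
    (by fun_prop : Continuous fun x : V2 => x 0 ^ 2).continuousOn.integrableOn_compact hC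
  unfold Qf
  have : ∀ x : V2, br x a ^ 2 = (a 0 ^ 2 * x 1 ^ 2 + (-2 * (a 0 * a 1)) * (x 0 * x 1)) +
      a 1 ^ 2 * x 0 ^ 2 := by
    intro x; unfold br; ring
  simp only [this]
  have j12 : Integrable (fun x : V2 => a 0 ^ 2 * x 1 ^ 2 + (-2 * (a 0 * a 1)) * (x 0 * x 1))
      (volume.restrict C) := (i1.const_mul _).add (i2.const_mul _)
  rw [integral_add j12 (i3.const_mul _),
    integral_add (i1.const_mul _) (i2.const_mul _), integral_const_mul, integral_const_mul,
    integral_const_mul]
  ring

lemma Qf_pos {C : Set V2} (hC : IsCompact C) (h0 : (0 : V2) ∈ interior C) {a : V2} (ha : a ≠ 0) :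
    0 < Qf C a := by
  have hcont : Continuous fun x : V2 => br x a ^ 2 := (br_cont a).pow 2
  have hnn : 0 ≤ Qf C a := integral_nonneg fun x => sq_nonneg _
  rcases eq_or_lt_of_le hnn with he | he
  · exfalso
    unfold Qf at he
    have hint : Integrable (fun x : V2 => br x a ^ 2) (volume.restrict C) :=
      hcont.continuousOn.integrableOn_compact hC
    have h1 := (integral_eq_zero_iff_of_nonneg (fun x => sq_nonneg _) hint).1 he.symm
    have h2 : (fun x : V2 => br x a ^ 2) =ᵐ[volume.restrict (interior C)] 0 :=
      ae_mono (Measure.restrict_mono interior_subset le_rfl) h1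
    have h3 := Measure.eqOn_open_of_ae_eq h2 isOpen_interior hcont.continuousOn
      continuousOn_const
    -- a point of the interior with nonzero bracket
    have hc2 : Continuous fun ε : ℝ => (fun i => ε * (![a 1, -a 0] : V2) i : V2) := by fun_prop
    have hmem : (fun ε : ℝ => (fun i => ε * (![a 1, -a 0] : V2) i : V2)) ⁻¹' interior C ∈
        𝓝 (0:ℝ) := by
      apply hc2.continuousAt.preimage_mem_nhds
      apply isOpen_interior.mem_nhds
      convert h0 using 1
      ext i; simp
    obtain ⟨ε, hε, hsub⟩ := Metric.mem_nhds_iff.1 hmem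
    have hmem2 := hsub (show ε / 2 ∈ ball (0:ℝ) ε by
      rw [mem_ball, Real.dist_eq, sub_zero, abs_of_pos (by positivity)]; linarith)
    have h4 := h3 hmem2
    simp only [br, Pi.zero_apply] at h4
    have h5 : (ε / 2) * (a 1 ^ 2 + a 0 ^ 2) = 0 := by
      have := pow_eq_zero_iff (two_ne_zero) |>.1 h4
      simp at this
      nlinarith
    have h6 : a 1 ^ 2 + a 0 ^ 2 = 0 := by
      rcases mul_eq_zero.1 h5 with h | h
      · exfalso; linarith
      · exact h
    apply ha
    ext i
    fin_cases i
    · simp; nlinarith [sq_nonneg (a 0), sq_nonneg (a 1)]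
    · simp; nlinarith [sq_nonneg (a 0), sq_nonneg (a 1)]
  · exact he

/-- the matrix of the skew reflection -/
def tauM (w n : V2) : Matrix (Fin 2) (Fin 2) ℝ :=
  !![-1 - n 0 * w 1, n 0 * w 0; -(n 1 * w 1), -1 + n 1 * w 0]

/-- the skew reflection -/
def tau (w n a : V2) : V2 := fun i => -a i + br w a * n i

lemma tau_eq (w n a : V2) : (tauM w n).toLin' a = tau w n a := by
  ext i
  fin_cases i
  · simp [tauM, tau, br, Matrix.toLin'_apply, Matrix.mulVec, dotProduct, Fin.sum_univ_two]
    ring
  · simp [tauM, tau, br, Matrix.toLin'_apply, Matrix.mulVec, dotProduct, Fin.sum_univ_two]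
    ring

lemma tauM_det {w n : V2} (h : br w n = 2) : (tauM w n).det = -1 := by
  unfold tauM
  rw [Matrix.det_fin_two_of]
  unfold br at h
  linear_combination -h

lemma tau_tau {w n : V2} (h : br w n = 2) (a : V2) : tau w n (tau w n a) = a := by
  unfold tau br at *
  ext i
  fin_cases i
  · simp; linear_combination (w 0 * a 1 - w 1 * a 0) * n 0 * h
  · simp; linear_combination (w 0 * a 1 - w 1 * a 0) * n 1 * h

lemma br_tau {w n : V2} (h : br w n = 2) (a b : V2) : br (tau w n a) (tau w n b) = -br a b := by
  unfold tau br at *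
  linear_combination (-(a 0 * b 1 - a 1 * b 0)) * h

lemma Qf_tau {C : Set V2} {w n : V2} (h : br w n = 2) (hinv : ∀ a ∈ C, tau w n a ∈ C) (a : V2) :
    Qf C (tau w n a) = Qf C a := by
  have hdet := tauM_det h
  have hmap := Real.map_matrix_volume_pi_eq_smul_volume_pi (M := tauM w n) (by rw [hdet]; norm_num)
  rw [hdet] at hmap
  norm_num at hmap
  have hmeas : Measurable ((tauM w n).toLin') :=
    (LinearMap.continuous_of_finiteDimensional _).measurable
  have hmp : MeasurePreserving ((tauM w n).toLin') volume volume := ⟨hmeas, hmap⟩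
  have hinj : Function.Injective ((tauM w n).toLin') := by
    intro x y hxy
    rw [tau_eq, tau_eq] at hxy
    rw [← tau_tau h x, ← tau_tau h y, hxy]
  have hemb : MeasurableEmbedding ((tauM w n).toLin') :=
    (LinearMap.isClosedEmbedding_of_injective (LinearMap.ker_eq_bot.2 hinj)).measurableEmbedding
  have h1 := hmp.setIntegral_preimage_emb hemb (fun x => br x (tau w n a) ^ 2) C
  have hpre : (tauM w n).toLin' ⁻¹' C = C := by
    ext x
    rw [mem_preimage, tau_eq]
    constructor
    · intro hx
      rw [← tau_tau h x]; exact hinv _ hx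
    · exact hinv x
  rw [hpre] at h1
  unfold Qf
  rw [← h1]
  congr 1
  ext x
  rw [tau_eq, br_tau h]
  ring

/-- The planar theorem: a norm with all skew reflections comes from a quadratic form. -/
theorem plane_quad (C : Set V2) (hC : IsCompact C) (h0 : (0 : V2) ∈ interior C)
    (N : V2 → ℝ) (hN : ∀ t : ℝ, ∀ a, N (t • a) = |t| * N a) (hNp : ∀ a, a ≠ 0 → 0 < N a)
    (hNC : ∀ a, a ∈ C ↔ N a ≤ 1)
    (hrefl : ∀ w : V2, w ≠ 0 → ∃ n : V2, br w n = 2 ∧ ∀ a ∈ C, tau w n a ∈ C) :
    ∃ p q r : ℝ, ∀ a : V2, N a ^ 2 = p * a 0 ^ 2 + 2 * q * (a 0 * a 1) + r * a 1 ^ 2 := by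
  obtain ⟨p, q, r, hQ⟩ := Qf_expand hC
  have hle : ∀ w n : V2, (∀ a ∈ C, tau w n a ∈ C) → ∀ a, N (tau w n a) ≤ N a := by
    intro w n hinv a
    by_cases ha : a = 0
    · have : tau w n a = (0:ℝ) • a := by
        rw [ha]; ext i; simp [tau, br]
      rw [this, hN, ha]
      have h1 : N 0 = 0 := by
        have := hN 0 0
        simpa using this
      rw [h1]; simp
    · have hp := hNp a ha
      have h1 : (N a)⁻¹ • a ∈ C := by
        rw [hNC, hN, abs_of_pos (by positivity), inv_mul_cancel₀ hp.ne']
      have h2 := hinv _ h1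
      have h3 : tau w n ((N a)⁻¹ • a) = (N a)⁻¹ • tau w n a := by
        ext i
        simp only [tau, br, Pi.smul_apply, smul_eq_mul]
        ring
      rw [h3, hNC, hN, abs_of_pos (by positivity), inv_mul_le_iff₀ hp, mul_one] at h2
      exact h2
  have heq : ∀ a b : V2, Qf C a = Qf C b → N b ≤ N a := by
    intro a b hab
    by_cases hne : a = b
    · rw [hne]
    set w : V2 := a - b with hw
    have hw0 : w ≠ 0 := sub_ne_zero.2 hne
    obtain ⟨n, hn, hinv⟩ := hrefl w hw0
    have htau : tau w n a = b := by
      have hQw := Qf_pos hC h0 hw0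
      -- v = a + b
      set v : V2 := a + b with hv
      have hQ1 : ∀ c, Qf C (tau w n c) = Qf C c := Qf_tau hn hinv
      have htw : tau w n w = -w := by
        ext i; simp only [tau, br, Pi.neg_apply]; ring
      -- tau v = v + c w
      have e1 := hQ1 (v + w)
      have e2 := hQ1 (v - w)
      have e3 := hQ1 v
      have hpar : br w (tau w n v) = br w v := by
        unfold tau br at *
        linear_combination (w 0 * v 1 - w 1 * v 0) * hn
      obtain ⟨c, hc⟩ : ∃ c : ℝ, tau w n v = v + c • w := by
        have hz : br w (tau w n v - v) = 0 := by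
          have : br w (tau w n v - v) = br w (tau w n v) - br w v := by
            unfold br; simp only [Pi.sub_apply]; ring
          rw [this, hpar, sub_self]
        set z := tau w n v - v with hz'
        have hwz : w 0 ≠ 0 ∨ w 1 ≠ 0 := by
          by_contra hcon
          push Not at hcon
          apply hw0
          ext i; fin_cases i
          · exact hcon.1
          · exact hcon.2
        unfold br at hz
        rcases hwz with hwz | hwz
        · refine ⟨z 0 / w 0, ?_⟩
          have : z = (z 0 / w 0) • w := by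
            ext i; fin_cases i
            · simp; field_simp
            · simp; field_simp; linarith
          rw [← this, hz']; abel
        · refine ⟨z 1 / w 1, ?_⟩
          have : z = (z 1 / w 1) • w := by
            ext i; fin_cases i
            · simp; field_simp; linarith
            · simp; field_simp
          rw [← this, hz']; abel
      have hlin : ∀ x y : V2, tau w n (x + y) = tau w n x + tau w n y := by
        intro x y; ext i; simp only [tau, br, Pi.add_apply]; ring
      have hc0 : c = 0 := by
        have h1 : tau w n (v + w) = v + (c - 1) • w := by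
          rw [hlin, hc, htw]; module
        have hvw : v + w = (2:ℝ) • a := by rw [hv, hw]; module
        have hvw' : v - w = (2:ℝ) • b := by rw [hv, hw]; module
        rw [h1] at e1
        rw [hc] at e3
        have e4 : Qf C (v + w) = Qf C (v - w) := by
          rw [hvw, hvw', hQ, hQ]
          rw [hQ, hQ] at hab
          simp only [Pi.smul_apply, smul_eq_mul]
          linear_combination 4 * hab
        rw [hQ] at hQw
        rw [hQ, hQ] at e1 e3 e4
        simp only [Pi.add_apply, Pi.sub_apply, Pi.smul_apply, smul_eq_mul] at e1 e3 e4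
        have h2 : c * (p * w 0 ^ 2 + 2 * q * (w 0 * w 1) + r * w 1 ^ 2) = 0 := by
          linear_combination (-1/2 : ℝ) * e1 + (1/2 : ℝ) * e3 - (1/2 : ℝ) * e4
        rcases mul_eq_zero.1 h2 with h | h
        · exact h
        · exfalso; linarith
      rw [hc0, zero_smul, add_zero] at hc
      have ha2 : a = (1/2 : ℝ) • (v + w) := by rw [hv, hw]; module
      have hsm : ∀ (t : ℝ) (x : V2), tau w n (t • x) = t • tau w n x := by
        intro t x; ext i; simp only [tau, br, Pi.smul_apply, smul_eq_mul]; ring
      calc tau w n a = tau w n ((1/2 : ℝ) • (v + w)) := by rw [← ha2]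
        _ = (1/2 : ℝ) • (v + -w) := by rw [hsm, hlin, hc, htw]
        _ = b := by rw [hv, hw]; module
    rw [← htau]
    exact hle w n hinv a
  have heq2 : ∀ a b : V2, Qf C a = Qf C b → N a = N b := fun a b h =>
    le_antisymm (heq b a h.symm) (heq a b h)
  set e : V2 := ![1, 0] with he
  have he0 : e ≠ 0 := by
    intro h
    have := congrFun h 0
    simp [he] at this
  have hQe := Qf_pos hC h0 he0
  have hNe := hNp e he0
  set κ : ℝ := N e ^ 2 / Qf C e with hκ
  have hfin : ∀ a, N a ^ 2 = κ * Qf C a := by
    intro a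
    by_cases ha : a = 0
    · have h1 : N 0 = 0 := by
        have := hN 0 0
        simpa using this
      rw [ha, h1, hQ]; simp
    · have hQa := Qf_pos hC h0 ha
      set t := √(Qf C a / Qf C e) with ht
      have ht2 : t ^ 2 = Qf C a / Qf C e := Real.sq_sqrt (by positivity)
      have h1 : Qf C (t • e) = Qf C a := by
        rw [hQ (t • e)]
        simp only [Pi.smul_apply, smul_eq_mul]
        have : p * (t * e 0) ^ 2 + 2 * q * (t * e 0 * (t * e 1)) + r * (t * e 1) ^ 2 =
          t ^ 2 * Qf C e := by rw [hQ]; ring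
        rw [this, ht2]
        field_simp
      have h2 := heq2 _ _ h1
      rw [hN] at h2
      rw [← h2, mul_pow, sq_abs, ht2, hκ]
      field_simp
  refine ⟨κ * p, κ * q, κ * r, ?_⟩
  intro a
  rw [hfin, hQ]; ring

end Pool.Agent.H318R3.GM
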