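import Pool.Agent.H318R3.GM.Refl
import Pool.Agent.H318R3.GM.Plane

set_option autoImplicit false

open MeasureTheory Set Filter Topology Metric
open scoped RealInnerProductSpace ENNReal

namespace Pool.Agent.H318R3.GM

variable {d : ℕ}

/-- A function that is a quadratic form on every plane, and positive, is the square norm in suitable
coordinates. -/
lemma of_quad (q : Eu d → ℝ)
    (hq : ∀ y z : Eu d, ∃ p c r : ℝ, ∀ s t : ℝ,
      q (s • y + t • z) = p * s ^ 2 + 2 * c * (s * t) + r * t ^ 2)
    (hpos : ∀ x, x ≠ 0 → 0 < q x) : ∃ A : Eu d ≃ₗ[ℝ] Eu d, ∀ y, q (A y) = ‖y‖ ^ 2 := by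
  have hpar : ∀ x y, q (x + y) + q (x - y) = 2 * q x + 2 * q y := by
    intro x y
    obtain ⟨p, c, r, h⟩ := hq x y
    have h1 := h 1 1
    have h2 := h 1 (-1)
    have h3 := h 1 0
    have h4 := h 0 1
    simp only [one_smul, neg_smul, zero_smul, add_zero, zero_add] at h1 h2 h3 h4
    rw [sub_eq_add_neg, h1, h2, h3, h4]
    ring
  have hthree : ∀ x y z, q (x + y + z) = q (x + z) + q (y + z) + q (x + y) - q x - q y - q z := by
    intro x y z
    have h1 := hpar (x + z) y
    have h2 := hpar x (y + z)
    have h3 := hpar (x - y) z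
    have h4 := hpar x y
    have e1 : x + z + y = x + y + z := by abel
    have e2 : x + (y + z) = x + y + z := by abel
    have e3 : x - y + z = x + z - y := by abel
    have e4 : x - y - z = x - (y + z) := by abel
    rw [e1] at h1
    rw [e2] at h2
    rw [e3, e4] at h3
    linarith
  have hhom : ∀ (s : ℝ) (y z : Eu d), q (s • y + z) - q (s • y) - q z =
      s * (q (y + z) - q y - q z) := by
    intro s y z
    obtain ⟨p, c, r, h⟩ := hq y z
    have h1 := h s 1
    have h2 := h s 0
    have h3 := h 0 1
    have h4 := h 1 1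
    have h5 := h 1 0
    simp only [one_smul, zero_smul, add_zero, zero_add] at h1 h2 h3 h4 h5
    rw [h1, h2, h3, h4, h5]
    ring
  let B : LinearMap.BilinForm ℝ (Eu d) := LinearMap.mk₂ ℝ
    (fun x y => (q (x + y) - q x - q y) / 2)
    (by
      intro x y z
      show (q (x + y + z) - q (x + y) - q z) / 2 =
        (q (x + z) - q x - q z) / 2 + (q (y + z) - q y - q z) / 2
      rw [hthree]; ring)
    (by
      intro s x y
      show (q (s • x + y) - q (s • x) - q y) / 2 = s • ((q (x + y) - q x - q y) / 2)
      rw [hhom, smul_eq_mul]; ring)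
    (by
      intro x y z
      show (q (x + (y + z)) - q x - q (y + z)) / 2 =
        (q (x + y) - q x - q y) / 2 + (q (x + z) - q x - q z) / 2
      rw [← add_assoc, hthree]; ring)
    (by
      intro s x y
      show (q (x + s • y) - q x - q (s • y)) / 2 = s • ((q (x + y) - q x - q y) / 2)
      have h1 := hhom s y x
      rw [add_comm x (s • y), add_comm x y, smul_eq_mul]
      linarith)
  have hBapp : ∀ x y, B x y = (q (x + y) - q x - q y) / 2 := fun x y => rfl
  have hBsymm : LinearMap.IsSymm (B : Eu d →ₗ[ℝ] Eu d →ₗ[ℝ] ℝ) := ⟨by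
    intro x y
    show B x y = B y x
    rw [hBapp, hBapp, add_comm x y]
    ring⟩
  have hBself : ∀ x, B x x = q x := by
    intro x
    obtain ⟨p, c, r, h⟩ := hq x 0
    have h1 := h 2 0
    have h2 := h 1 0
    simp only [one_smul, zero_smul, add_zero, smul_zero] at h1 h2
    rw [hBapp, ← two_smul ℝ x, h1, h2]
    ring
  obtain ⟨v, hv⟩ := LinearMap.BilinForm.exists_orthogonal_basis hBsymm
  have hfin : Module.finrank ℝ (Eu d) = d := by simp
  let w : Module.Basis (Fin d) ℝ (Eu d) := v.reindex (finCongr hfin)
  have hw : ∀ i j, i ≠ j → B (w i) (w j) = 0 := by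
    intro i j hij
    have h1 : w i = v ((finCongr hfin).symm i) := by simp [w]
    have h2 : w j = v ((finCongr hfin).symm j) := by simp [w]
    rw [h1, h2]
    have h3 : (finCongr hfin).symm i ≠ (finCongr hfin).symm j :=
      fun h => hij ((finCongr hfin).symm.injective h)
    exact hv h3
  have hqw : ∀ i, 0 < q (w i) := fun i => hpos _ (w.ne_zero i)
  have hs : ∀ i, 0 < √(q (w i)) := fun i => Real.sqrt_pos.2 (hqw i)
  let b : Module.Basis (Fin d) ℝ (Eu d) :=
    w.isUnitSMul (w := fun i => (√(q (w i)))⁻¹) (fun i => (IsUnit.mk0 _ (inv_ne_zero (hs i).ne')))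
  have hb : ∀ i, b i = (√(q (w i)))⁻¹ • w i := fun i => Module.Basis.isUnitSMul_apply _ i
  have hbB : ∀ i j, B (b i) (b j) = if i = j then 1 else 0 := by
    intro i j
    rw [hb, hb, map_smul, map_smul, LinearMap.smul_apply, smul_eq_mul, smul_eq_mul]
    by_cases hij : i = j
    · subst hij
      rw [hBself, if_pos rfl]
      have h1 : √(q (w i)) * √(q (w i)) = q (w i) := Real.mul_self_sqrt (hqw i).le
      have h2 := (hs i).ne'
      calc (√(q (w i)))⁻¹ * ((√(q (w i)))⁻¹ * q (w i)) =
          (√(q (w i)))⁻¹ * ((√(q (w i)))⁻¹ * (√(q (w i)) * √(q (w i)))) := by rw [h1]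
        _ = 1 := by field_simp
    · rw [hw i j hij, if_neg hij]; simp
  let A : Eu d ≃ₗ[ℝ] Eu d :=
    (EuclideanSpace.basisFun (Fin d) ℝ).toBasis.equiv b (Equiv.refl _)
  refine ⟨A, ?_⟩
  intro y
  have hy : y = ∑ i, y i • (EuclideanSpace.basisFun (Fin d) ℝ).toBasis i := by
    conv_lhs => rw [← (EuclideanSpace.basisFun (Fin d) ℝ).toBasis.sum_repr y]
    simp
  have hAy : A y = ∑ i, y i • b i := by
    conv_lhs => rw [hy]
    rw [map_sum]
    apply Finset.sum_congr rfl
    intro i _
    rw [map_smul]
    congr 1
    simp only [A, Module.Basis.equiv_apply, Equiv.refl_apply]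
  rw [← hBself, hAy, EuclideanSpace.norm_sq_eq]
  simp only [map_sum, LinearMap.sum_apply, map_smul, LinearMap.smul_apply, hbB, smul_eq_mul,
    mul_ite, mul_one, mul_zero, Finset.sum_ite_eq, Finset.sum_ite_eq', Finset.mem_univ, if_true,
    Real.norm_eq_abs, sq_abs]
  apply Finset.sum_congr rfl
  intro i _
  ring

section gauge

variable {M : Set (Eu d)}

lemma gauge_abs (hb : IsSymmBody M) (t : ℝ) (x : Eu d) :
    gauge M (t • x) = |t| * gauge M x := by
  rcases abs_cases t with ⟨he, ht⟩ | ⟨he, ht⟩
  · rw [he, gauge_smul_of_nonneg ht]; rfl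
  · rw [he]
    have : t • x = -((-t) • x) := by rw [neg_smul, neg_neg]
    rw [this, gauge_neg hb.neg_mem, gauge_smul_of_nonneg (by linarith : 0 ≤ -t)]; rfl

lemma gauge_posi (hb : IsSymmBody M) {x : Eu d} (hx : x ≠ 0) : 0 < gauge M x := by
  rw [gauge_pos (absorbent_nhds_zero (mem_interior_iff_mem_nhds.1 hb.zero_mem_interior))
    ((NormedSpace.isVonNBounded_iff ℝ).2 hb.isCompact.isBounded)]
  exact hx

lemma gauge_le_one (hb : IsSymmBody M) (x : Eu d) : x ∈ M ↔ gauge M x ≤ 1 := by
  rw [gauge_le_one_iff_mem_closure hb.convex (mem_interior_iff_mem_nhds.1 hb.zero_mem_interior),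
    hb.isCompact.isClosed.closure_eq]

end gauge

theorem Ext.quad {C : ℝ} {M : Set (Eu d)} (h : Ext C M) (y z : Eu d) :
    ∃ p c r : ℝ, ∀ s t : ℝ,
      gauge M (s • y + t • z) ^ 2 = p * s ^ 2 + 2 * c * (s * t) + r * t ^ 2 := by
  have hb := h.body
  by_cases hli : LinearIndependent ℝ ![y, z]
  · let Φ : V2 →ₗ[ℝ] Eu d :=
      { toFun := fun a => a 0 • y + a 1 • z
        map_add' := by
          intro a b
          simp only [Pi.add_apply]
          module
        map_smul' := by
          intro t a
          simp only [Pi.smul_apply, smul_eq_mul, RingHom.id_apply]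
          module }
    have hΦ : ∀ a : V2, Φ a = a 0 • y + a 1 • z := fun a => rfl
    have hker : LinearMap.ker Φ = ⊥ := by
      rw [LinearMap.ker_eq_bot']
      intro a ha
      rw [hΦ] at ha
      have h1 := LinearIndependent.pair_iff.1 hli _ _ ha
      ext i
      fin_cases i
      · exact h1.1
      · exact h1.2
    have hcl := LinearMap.isClosedEmbedding_of_injective hker
    set K : Set V2 := Φ ⁻¹' M with hK
    have hKc : IsCompact K := hcl.isCompact_preimage hb.isCompact
    have hK0 : (0 : V2) ∈ interior K := by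
      rw [mem_interior_iff_mem_nhds]
      apply hcl.continuous.continuousAt.preimage_mem_nhds
      rw [map_zero]
      exact mem_interior_iff_mem_nhds.1 hb.zero_mem_interior
    have hinj : ∀ a, a ≠ 0 → Φ a ≠ 0 := by
      intro a ha h0
      exact ha ((LinearMap.ker_eq_bot'.1 hker) a h0)
    obtain ⟨p, c, r, hpc⟩ := plane_quad K hKc hK0 (fun a => gauge M (Φ a))
      (by
        intro t a
        show gauge M (Φ (t • a)) = |t| * gauge M (Φ a)
        rw [map_smul, gauge_abs hb])
      (fun a ha => gauge_posi hb (hinj a ha))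
      (fun a => gauge_le_one hb (Φ a))
      (by
        intro w hw
        set w' : V2 := ![-w 1, w 0] with hw'
        obtain ⟨μ, hμ⟩ := reflect h (Φ w') (hinj w hw)
        set D : ℝ := w 0 ^ 2 + w 1 ^ 2 with hD
        have hD0 : 0 < D := by
          by_contra hneg
          apply hw
          ext i
          fin_cases i
          · show w 0 = 0
            nlinarith [sq_nonneg (w 0), sq_nonneg (w 1)]
          · show w 1 = 0
            nlinarith [sq_nonneg (w 0), sq_nonneg (w 1)]
        refine ⟨fun i => (2 * w' i + μ * w i) / D, ?_, ?_⟩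
        · unfold br
          simp only [hw', Matrix.cons_val_zero, Matrix.cons_val_one]
          field_simp
          rw [hD]
          ring
        · intro a ha
          -- a = s w' + t w
          have h1 := hμ ((w 0 * a 1 - w 1 * a 0) / D) ((w 0 * a 0 + w 1 * a 1) / D) (by
            rw [← map_smul, ← map_smul, ← map_add]
            have e : ((w 0 * a 1 - w 1 * a 0) / D) • w' + ((w 0 * a 0 + w 1 * a 1) / D) • w = a := by
              ext i
              fin_cases i
              · simp [hw']
                field_simp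
                rw [hD]; ring
              · simp [hw']
                field_simp
                rw [hD]; ring
            rw [e]
            exact ha)
          rw [← map_smul, ← map_smul, ← map_add] at h1
          have e : ((w 0 * a 1 - w 1 * a 0) / D) • w' + (μ * ((w 0 * a 1 - w 1 * a 0) / D) -
              (w 0 * a 0 + w 1 * a 1) / D) • w =
              tau w (fun i => (2 * w' i + μ * w i) / D) a := by
            ext i
            fin_cases i
            · simp [hw', tau, br]
              field_simp
              rw [hD]; ring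
            · simp [hw', tau, br]
              field_simp
              rw [hD]; ring
          rw [e] at h1
          exact h1)
    refine ⟨p, c, r, ?_⟩
    intro s t
    have := hpc ![s, t]
    simpa [hΦ] using this
  · -- dependent case
    rw [LinearIndependent.pair_iff] at hli
    push Not at hli
    obtain ⟨s, t, hst, hne⟩ := hli
    by_cases hs : s = 0
    · have ht := hne hs
      rw [hs, zero_smul, zero_add] at hst
      have hz : z = 0 := (smul_eq_zero.1 hst).resolve_left ht
      refine ⟨gauge M y ^ 2, 0, 0, ?_⟩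
      intro s' t'
      rw [hz, smul_zero, add_zero, gauge_abs hb, mul_pow, sq_abs]
      ring
    · have hy : y = (-t / s) • z := by
        have h1 : s • y = (-t) • z := by
          rw [neg_smul]; exact eq_neg_of_add_eq_zero_left hst
        have h2 : y = s⁻¹ • (s • y) := by rw [smul_smul, inv_mul_cancel₀ hs, one_smul]
        rw [h2, h1, smul_smul]
        congr 1
        field_simp
      set k := -t / s with hk
      refine ⟨k ^ 2 * gauge M z ^ 2, k * gauge M z ^ 2, gauge M z ^ 2, ?_⟩
      intro s' t'
      have : s' • y + t' • z = (s' * k + t') • z := by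
        rw [hy]; module
      rw [this, gauge_abs hb, mul_pow, sq_abs]
      ring

theorem Ext.ellipsoid {C : ℝ} {M : Set (Eu d)} (h : Ext C M) :
    ∃ A : Eu d ≃ₗ[ℝ] Eu d, M = A '' closedBall (0 : Eu d) 1 := by
  have hb := h.body
  obtain ⟨A, hA⟩ := of_quad (fun x => gauge M x ^ 2) h.quad
    (fun x hx => by
      have := gauge_posi hb hx
      positivity)
  refine ⟨A, ?_⟩
  ext x
  constructor
  · intro hx
    refine ⟨A.symm x, ?_, A.apply_symm_apply x⟩
    rw [mem_closedBall_zero_iff]
    have h1 := hA (A.symm x)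
    rw [A.apply_symm_apply] at h1
    have h2 := (gauge_le_one hb x).1 hx
    have h3 : 0 ≤ gauge M x := gauge_nonneg x
    have h4 := norm_nonneg (A.symm x)
    nlinarith
  · rintro ⟨y, hy, rfl⟩
    rw [mem_closedBall_zero_iff] at hy
    rw [gauge_le_one hb]
    have h1 := hA y
    have h3 : 0 ≤ gauge M (A y) := gauge_nonneg _
    have h4 := norm_nonneg y
    nlinarith

theorem gromovMass_eq_iff (hd : 0 < d) {M : Set (Eu d)} (hM : IsSymmBody M) :
    gromovMass M = kap d ↔ ∃ A : Eu d ≃ₗ[ℝ] Eu d, M = A '' closedBall (0 : Eu d) 1 := by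
  constructor
  · intro h
    obtain ⟨C, hC, hB, hv⟩ := exists_max hM.isCompact hM.interior_nonempty
    rw [gromovMass_eq hd hC hB hv, div_eq_iff hC.ne'] at h
    exact Ext.ellipsoid ⟨hM, hC, hB, h.ge⟩
  · rintro ⟨A, rfl⟩
    exact gromovMass_ellipsoid hd A

lemma kap_eq (hd : 0 < d) : kap d = √Real.pi ^ d / Real.Gamma (d / 2 + 1) := by
  have : Nonempty (Fin d) := ⟨⟨0, hd⟩⟩
  unfold kap
  rw [EuclideanSpace.volume_closedBall]
  simp only [ENNReal.ofReal_one, one_pow, one_mul, Fintype.card_fin]
  rw [ENNReal.toReal_ofReal]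
  have : 0 < Real.Gamma (d / 2 + 1) := Real.Gamma_pos_of_pos (by positivity)
  positivity

end Pool.Agent.H318R3.GM
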