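import Pool.Agent.H318R3.GM.Core

set_option autoImplicit false

open MeasureTheory Set Filter Topology Metric
open scoped RealInnerProductSpace ENNReal

namespace Pool.Agent.H318R3.GM

open Pool.Agent.H318R3.St

variable {d : ℕ}

lemma reflect_unit {C : ℝ} {M : Set (Eu d)} (h : Ext C M) {u x : Eu d} (hu : ‖u‖ = 1)
    (hx : ⟪x, u⟫ = 0) :
    ∃ μ : ℝ, ∀ s t : ℝ, s • x + t • u ∈ M → s • x + (μ * s - t) • u ∈ M := by
  have hb := h.body
  by_cases hx0 : x = 0
  · refine ⟨0, fun s t hst => ?_⟩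
    rw [hx0] at hst ⊢
    have := hb.neg_mem _ hst
    convert this using 1
    module
  set I : Set ℝ := {s | (chord u (s • x) M).Nonempty} with hI
  obtain ⟨R0, hR0⟩ := hb.isCompact.isBounded.subset_closedBall 0
  have hxn : 0 < ‖x‖ := norm_pos_iff.2 hx0
  have hIb : BddAbove I := by
    refine ⟨R0 / ‖x‖, ?_⟩
    rintro s ⟨t, ht⟩
    rw [le_div_iff₀ hxn]
    have h1 : ‖s • x + t • u‖ ≤ R0 := mem_closedBall_zero_iff.1 (hR0 ht)
    have h2 : ⟪s • x, t • u⟫ = 0 := by
      rw [inner_smul_left, inner_smul_right, hx]; simp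
    have h3 := norm_add_sq_eq_norm_sq_add_norm_sq_of_inner_eq_zero _ _ h2
    have h4 : ‖s • x‖ ≤ ‖s • x + t • u‖ := by
      by_contra hneg
      push Not at hneg
      nlinarith [norm_nonneg (s • x), norm_nonneg (t • u), norm_nonneg (s • x + t • u)]
    rw [norm_smul] at h4
    have h5 : s * ‖x‖ ≤ ‖s‖ * ‖x‖ := by
      apply mul_le_mul_of_nonneg_right _ hxn.le
      exact le_abs_self s
    linarith
  obtain ⟨κ, hκ, hκM⟩ := hb.exists_small x
  have hκI : κ ∈ I := ⟨0, by simpa [chord] using hκM⟩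
  set R := sSup I with hR
  have hRpos : 0 < R := hκ.trans_le (le_csSup hIb hκI)
  have hex : ∀ r ∈ Ioo 0 R, ∃ r' ∈ I, r < r' := fun r hr => exists_lt_of_lt_csSup ⟨κ, hκI⟩ hr.2
  have hcore : ∀ r ∈ Ioo 0 R, r ∈ I ∧ ∃ c f g : ℝ, 0 < c ∧ c * top u x M r + r * f = 1 ∧
      -c * bot u x M r + r * g = 1 ∧
      ∀ s, (chord u (s • x) M).Nonempty →
        c * top u x M s + s * f ≤ 1 ∧ -c * bot u x M s + s * g ≤ 1 := by
    intro r hr
    obtain ⟨r', hr', hrr⟩ := hex r hr
    exact core h hu hx hr.1 hrr hr'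
  set A : ℝ → ℝ := fun s => (top u x M s + bot u x M s) / (2 * s) with hA
  set lam : ℝ → ℝ := fun s => (top u x M s - bot u x M s) / 2 with hlam
  have hB : ∀ r ∈ Ioo 0 R, ∃ Br : ℝ, ∀ s ∈ Ioo 0 R,
      s * |A s - A r| + lam s - lam r ≤ (s - r) * Br := by
    intro r hr
    obtain ⟨-, c, f, g, hc, h1, h2, h3⟩ := hcore r hr
    refine ⟨-(f / c + g / c) / 2, ?_⟩
    intro s hs
    obtain ⟨h4, h5⟩ := h3 s (hcore s hs).1
    set F := f / c with hF
    set G := g / c with hG
    set k := 1 / c with hk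
    have hf : f = c * F := by rw [hF]; field_simp
    have hg : g = c * G := by rw [hG]; field_simp
    have hk1 : 1 = c * k := by rw [hk]; field_simp
    have e1 : top u x M r + r * F = k := by
      have : c * (top u x M r + r * F) = c * k := by rw [← hk1, ← h1, hf]; ring
      exact mul_left_cancel₀ hc.ne' this
    have e2 : -bot u x M r + r * G = k := by
      have : c * (-bot u x M r + r * G) = c * k := by rw [← hk1, ← h2, hg]; ring
      exact mul_left_cancel₀ hc.ne' this
    have e3 : top u x M s + s * F ≤ k := by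
      have : c * (top u x M s + s * F) ≤ c * k := by
        rw [← hk1]; calc _ = c * top u x M s + s * f := by rw [hf]; ring
          _ ≤ 1 := h4
      exact le_of_mul_le_mul_left this hc
    have e4 : -bot u x M s + s * G ≤ k := by
      have : c * (-bot u x M s + s * G) ≤ c * k := by
        rw [← hk1]; calc _ = -c * bot u x M s + s * g := by rw [hg]; ring
          _ ≤ 1 := h5
      exact le_of_mul_le_mul_left this hc
    have hs0 := hs.1
    have hr0 := hr.1
    have a1 : s * A s = (top u x M s + bot u x M s) / 2 := by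
      simp only [hA]; field_simp
    have a2 : A r = (G - F) / 2 := by
      simp only [hA]
      rw [div_eq_div_iff (by positivity) (by norm_num)]
      linarith
    have a3 : s * |A s - A r| = |s * A s - s * A r| := by
      rw [← mul_sub, abs_mul, abs_of_pos hs0]
    rw [a3, a1, a2]
    simp only [hlam]
    rcases abs_cases ((top u x M s + bot u x M s) / 2 - s * ((G - F) / 2)) with ⟨he, _⟩ | ⟨he, _⟩
    · rw [he]; nlinarith
    · rw [he]; nlinarith
  choose! B hB using hB
  have hconst := const_of_ineq A B lam hB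
  set a := A (R / 2) with ha
  have hR2 : R / 2 ∈ Ioo 0 R := ⟨by positivity, by linarith⟩
  have hmid : ∀ s ∈ Ioo 0 R, ∀ t, s • x + t • u ∈ M → s • x + (2 * a * s - t) • u ∈ M := by
    intro s hs t hst
    have h1 : A s = a := hconst s hs (R / 2) hR2
    obtain ⟨hle, hIcc⟩ := chord_eq hu x hb.isCompact hb.convex (hcore s hs).1
    have hs0 := hs.1
    have h2 : top u x M s + bot u x M s = 2 * a * s := by
      rw [← h1]; simp only [hA]; field_simp
    have h3 : t ∈ chord u (s • x) M := hst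
    rw [hIcc] at h3
    have h4 : 2 * a * s - t ∈ chord u (s • x) M := by
      rw [hIcc]
      constructor <;> linarith [h3.1, h3.2]
    exact h4
  have hpos : ∀ s t, 0 < s → s • x + t • u ∈ M → s • x + (2 * a * s - t) • u ∈ M := by
    intro s t hs hst
    have h0 : (0 : Eu d) ∈ M := interior_subset hb.zero_mem_interior
    have hsR : s ≤ R := le_csSup hIb ⟨t, hst⟩
    have h1 : ∀ θ : ℝ, θ ∈ Ioo 0 1 → θ • (s • x + (2 * a * s - t) • u) ∈ M := by
      intro θ hθ
      have h2 : θ • (s • x + t • u) ∈ M :=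
        hb.convex.smul_mem_of_zero_mem h0 hst ⟨hθ.1.le, hθ.2.le⟩
      have h3 : (θ * s) • x + (θ * t) • u ∈ M := by
        convert h2 using 1
        module
      have h4 := hmid (θ * s) ⟨mul_pos hθ.1 hs, by nlinarith [hθ.1, hθ.2]⟩ _ h3
      convert h4 using 1
      module
    have hcont : Tendsto (fun θ : ℝ => θ • (s • x + (2 * a * s - t) • u)) (𝓝[<] 1)
        (𝓝 ((1:ℝ) • (s • x + (2 * a * s - t) • u))) := by
      apply Tendsto.mono_left _ nhdsWithin_le_nhds
      have : Continuous fun θ : ℝ => θ • (s • x + (2 * a * s - t) • u) := by fun_prop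
      exact this.tendsto 1
    rw [one_smul] at hcont
    apply hb.isCompact.isClosed.mem_of_tendsto hcont
    have : Ioo (0:ℝ) 1 ∈ 𝓝[<] (1:ℝ) := Ioo_mem_nhdsLT (by norm_num)
    filter_upwards [this] with θ hθ using h1 θ hθ
  refine ⟨2 * a, ?_⟩
  intro s t hst
  rcases lt_trichotomy s 0 with hs | hs | hs
  · have h1 : (-s) • x + (-t) • u ∈ M := by
      convert hb.neg_mem _ hst using 1
      module
    have h2 := hpos (-s) (-t) (by linarith) h1
    convert hb.neg_mem _ h2 using 1
    module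
  · rw [hs] at hst ⊢
    convert hb.neg_mem _ hst using 1
    module
  · exact hpos s t hs hst

theorem reflect {C : ℝ} {M : Set (Eu d)} (h : Ext C M) {u : Eu d} (w : Eu d) (hu : u ≠ 0) :
    ∃ μ : ℝ, ∀ s t : ℝ, s • w + t • u ∈ M → s • w + (μ * s - t) • u ∈ M := by
  have hun : 0 < ‖u‖ := norm_pos_iff.2 hu
  set v : Eu d := ‖u‖⁻¹ • u with hv
  have hv1 : ‖v‖ = 1 := by
    rw [hv, norm_smul, norm_inv, norm_norm, inv_mul_cancel₀ hun.ne']
  have huv : u = ‖u‖ • v := by
    rw [hv, smul_smul, mul_inv_cancel₀ hun.ne', one_smul]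
  obtain ⟨μ, hμ⟩ := reflect_unit h hv1 (foot_inner hv1 w)
  set k := ⟪w, v⟫ with hk
  have hw : w = foot v w + k • v := (foot_add v w).symm
  set x := foot v w with hx
  refine ⟨(μ - 2 * k) / ‖u‖, ?_⟩
  intro s t hst
  have h1 : s • x + (s * k + t * ‖u‖) • v ∈ M := by
    convert hst using 1
    rw [hw, huv, norm_smul, hv1, norm_norm, mul_one]
    module
  have h2 := hμ _ _ h1
  convert h2 using 1
  rw [hw]
  conv_lhs => rw [huv]
  rw [norm_smul, hv1, norm_norm, mul_one]
  have : ((μ - 2 * k) / ‖u‖ * s - t) • ‖u‖ • v = ((μ - 2 * k) * s - t * ‖u‖) • v := by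
    rw [smul_smul]
    congr 1
    field_simp
  rw [this]
  module

end Pool.Agent.H318R3.GM
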